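import Pool.Agent.Helper23.FT.Window
import Pool.Agent.Helper87.SC.Theory

/-!
# Heegaard Floer homology of integral surgeries

`FloerTheory` extends the structure `KnotTheory` by spin^c structures, `d`-invariants, the ranks of the
reduced Heegaard Floer homology and the published theorems on them which are used. Every field is a
true statement.
-/

set_option autoImplicit false

namespace Pool.Agent.Helper23.FT

open Pool.Agent.Helper87.SC

/-- Knots in the 3-sphere, their surgeries, and Heegaard Floer homology with coefficients in the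
field with two elements. -/
structure FloerTheory extends KnotTheory where
  /-- the spin^c structures -/
  SpinC : Man → Type
  /-- the action of the first homology group (by Poincaré duality) -/
  [action : ∀ M, AddAction (H M) (SpinC M)]
  /-- the `d`-invariant (correction term) of a rational homology sphere -/
  d : ∀ M, SpinC M → ℚ
  /-- the rank of the reduced homology `HF_red(M, t)` in the degree `d(M, t) + q` -/
  red : ∀ M, SpinC M → ℤ → ℕ
  /-- the manifold with the reversed orientation -/
  rev : Man → Man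
  /-- the mirror image of a knot -/
  mirror : Knot → Knot
  /-- the numerical invariants which come from the knot Floer complex -/
  data : Knot → FloerData
  genus_data : ∀ K, (data K).genus = genus K
  rev_sum : ∀ A B, rev (sum A B) = sum (rev A) (rev B)
  lens_rev : ∀ {n M}, lens n M → lens n (rev M)
  surg_mirror : ∀ K (r : ℤ), surg (mirror K) (-r : ℤ) = rev (surg K r)
  mirror_mirror : ∀ K, mirror (mirror K) = K
  genus_mirror : ∀ K, (data (mirror K)).genus = (data K).genus
  g4_mirror : ∀ K, (data (mirror K)).g4 = (data K).g4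
  /-- the knot Floer homology of the mirror image is dual -/
  dmin_mirror : ∀ K, (data (mirror K)).dmin = -(data K).dmax
  dmax_mirror : ∀ K, (data (mirror K)).dmax = -(data K).dmin
  /-- the bottom of the tower of `A_0⁺` for the mirror image comes from a generator with
  `δ ≥ - 2 V_0` -/
  dmin_le : ∀ K, (data K).dmin ≤ 2 * (data (mirror K)).V 0
  /-- connected sums: the spin^c structures are pairs, `d` is additive (Ozsváth and Szabó 2003) and
  the sum with a lens space, an L-space, only shifts the degrees of the Floer homology (Künneth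
  formula) -/
  spinc_sum : ∀ A B, Finite (H A) → Finite (H B) →
    ∃ (e : H (sum A B) ≃+ H A × H B) (p : SpinC (sum A B) → SpinC A × SpinC B),
      (∀ x t, p (x +ᵥ t) = ((e x).1 +ᵥ (p t).1, (e x).2 +ᵥ (p t).2)) ∧
      (∀ t, d (sum A B) t = d A (p t).1 + d B (p t).2) ∧
      ∀ n, lens n A → ∀ t q, red (sum A B) t q = red B (p t).2 q
  /-- positive integral surgeries: the spin^c structures are labelled by the residues modulo `r`
  (Ozsváth and Szabó 2008), the `d`-invariants are given by Ni and Wu 2015, Proposition 1.6, and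
  the ranks of the reduced homology by the mapping cone formula (Gainullin 2017) -/
  spinc_surg : ∀ (K : Knot) (r : ℕ), 0 < r →
    ∃ (e : H (surg K (r : ℤ)) ≃+ ZMod r) (f : SpinC (surg K (r : ℤ)) ≃ ZMod r),
      (∀ x t, f (x +ᵥ t) = e x + f t) ∧
      (∀ i : ℕ, i < r → d _ (f.symm i) = ((2 * i - r) ^ 2 - r) / (4 * r)
        - 2 * (data K).V (min i (r - i))) ∧
      ∀ (i : ℕ) (q : ℤ), 2 * i ≤ r → red _ (f.symm i) q = (data K).redRank r i q ∧
        red _ (f.symm (-i)) q = (data K).redRank r i q
  /-- Matignon and Sayari 2003: if `K(r)` is reducible and `r` is not the slope of a cabling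
  annulus then `|r| ≤ 2 g - 1` -/
  matignonSayari : ∀ (K : Knot) (r : ℤ), genus K ≠ 0 → ¬ cabling K r →
    ((∃ A B, A ≠ sphere ∧ B ≠ sphere ∧ surg K r = sum A B) ∨ surg K r = sphereCircle) →
    |r| ≤ 2 * genus K - 1

namespace FloerTheory

variable (T : FloerTheory)

instance (M : T.Man) : AddAction (T.H M) (T.SpinC M) := T.action M

/-- The slice genus. -/
def g4 (K : T.Knot) : ℕ := (T.data K).g4

/-- The Floer thickness. -/
def th (K : T.Knot) : ℤ := (T.data K).th

variable {T}

theorem th_mirror (K : T.Knot) : T.th (T.mirror K) = T.th K := by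
  unfold th FloerData.th
  rw [T.dmin_mirror, T.dmax_mirror]
  ring

/-- A positive surgery which is a connected sum with a lens space. -/
theorem splits {K : T.Knot} {r n : ℕ} (hr : 0 < r) {L A : T.Man} (hL : T.lens n L)
    (h : T.surg K (r : ℤ) = T.sum L A) : ∃ b : ℕ, r = n * b ∧ (T.data K).Splits n b := by
  classical
  obtain ⟨e, f, hef, hd, hred⟩ := T.spinc_surg K r hr
  obtain ⟨eL⟩ := T.homology_lens hL
  have hn := T.two_le_of_lens hL
  have : NeZero n := ⟨by omega⟩
  have : NeZero r := ⟨by omega⟩
  have hfL : Finite (T.H L) := Finite.of_equiv _ eL.symm.toEquiv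
  generalize T.surg K (r : ℤ) = M at h e f hef hd hred
  subst h
  obtain ⟨eS'⟩ := T.homology_sum L A
  have hfS : Finite (T.H (T.sum L A)) := Finite.of_equiv _ e.symm.toEquiv
  have hfA : Finite (T.H A) := by
    have : Finite (T.H L × T.H A) := Finite.of_equiv _ eS'.toEquiv
    exact Finite.of_surjective (fun z : T.H L × T.H A => z.2) fun y => ⟨(0, y), rfl⟩
  obtain ⟨eS, P, hP1, hP2, hP3⟩ := T.spinc_sum L A hfL hfA
  have hcard : r = n * Nat.card (T.H A) := by
    have h1 := Nat.card_congr (e.symm.trans eS).toEquiv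
    rw [Nat.card_zmod, Nat.card_prod, Nat.card_congr eL.toEquiv, Nat.card_zmod] at h1
    exact h1
  have hcyc : IsAddCyclic (T.H L × T.H A) :=
    isAddCyclic_of_surjective (e.symm.trans eS) (e.symm.trans eS).surjective
  have hcop : n.Coprime (Nat.card (T.H A)) := by
    have h1 := coprime_card_of_isAddCyclic_prod (T.H L) (T.H A)
    rwa [Nat.card_congr eL.toEquiv, Nat.card_zmod] at h1
  set b := Nat.card (T.H A) with hb
  have hbpos : 0 < b := Nat.card_pos
  refine ⟨b, hcard, hn, hbpos, hcop, ?_, ?_⟩
  all_goals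
    -- the generator of the homology
    set x : T.H (T.sum L A) := e.symm 1 with hx
    have hadd : ∀ (k : ℕ) (i : ZMod r), (k • x) +ᵥ f.symm i = f.symm (i + k) := by
      intro k i
      apply f.injective
      rw [hef, map_nsmul, Equiv.apply_symm_apply, Equiv.apply_symm_apply, hx,
        AddEquiv.apply_symm_apply, nsmul_eq_mul, mul_one, add_comm]
    have h1 : n • (eS x).1 = 0 := by
      have h2 : n • eL (eS x).1 = 0 := by
        rw [nsmul_eq_mul, ZMod.natCast_self, zero_mul]
      rw [← map_nsmul] at h2
      exact (map_eq_zero_iff eL eL.injective).mp h2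
    have h2 : b • (eS x).2 = 0 := card_nsmul_eq_zero'
    have hper1 : ∀ i : ZMod r, (P (f.symm (i + n))).1 = (P (f.symm i)).1 := by
      intro i
      rw [← hadd, hP1, map_nsmul]
      change (n • (eS x)).1 +ᵥ _ = _
      rw [Prod.smul_fst, h1, zero_vadd]
    have hper2 : ∀ i : ZMod r, (P (f.symm (i + b))).2 = (P (f.symm i)).2 := by
      intro i
      rw [← hadd, hP1, map_nsmul]
      change (b • (eS x)).2 +ᵥ _ = _
      rw [Prod.smul_snd, h2, zero_vadd]
  · refine ⟨fun i => T.d L (P (f.symm (i : ZMod r))).1, fun i => T.d A (P (f.symm (i : ZMod r))).2,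
      fun i => ?_, fun i => ?_, fun i hi => ?_⟩
    · have h3 := hper1 i
      push_cast
      rw [h3]
    · have h3 := hper2 i
      push_cast
      rw [h3]
    · have h3 := hd i (by rwa [hcard])
      rw [hP2] at h3
      have hrq : (r : ℚ) = n * b := by exact_mod_cast hcard
      have hmin : min i (n * b - i) = min i (r - i) := by rw [hcard]
      rw [hrq] at h3
      rw [hmin, ← h3]
      push_cast
      rfl
  · refine ⟨fun i q => T.red A (P (f.symm (i : ZMod r))).2 q, fun i q => ?_, fun i q hi => ?_⟩
    · have h3 := hper2 i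
      push_cast
      rw [h3]
    · rw [← hcard] at hi ⊢
      have h3 := hred i q hi
      rw [hP3 n hL, hP3 n hL] at h3
      push_cast
      exact h3

/-- Every essential planar surface which is no disc gives a decomposition of a positive surgery on the
knot or on its mirror image. -/
theorem exists_splits {K : T.Knot} (P : T.Surface K) (hP : 2 ≤ T.comps P) :
    ∃ (r : ℤ) (n b : ℕ), T.slope P = r ∧ r.natAbs = n * b ∧
      (0 < r ∧ (T.data K).Splits n b ∨ r < 0 ∧ (T.data (T.mirror K)).Splits n b) := by
  have hg : T.genus K ≠ 0 := by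
    intro h
    have := T.comps_of_trivial P h
    omega
  obtain ⟨r, hr⟩ := T.slope_integral P
  obtain ⟨n, L, A, hL, hLA⟩ := T.lens_summand P hg
  rw [hr] at hLA
  have hr0 : r ≠ 0 := KnotTheory.ne_zero_of_summand hL hLA
  rcases lt_or_gt_of_ne hr0 with h | h
  · have h1 := T.surg_mirror K r
    rw [hLA, T.rev_sum] at h1
    have h2 : -r = ((r.natAbs : ℕ) : ℤ) := by omega
    rw [h2] at h1
    obtain ⟨b, hb, hs⟩ := splits (by omega) (T.lens_rev hL) h1
    exact ⟨r, n, b, hr, hb, Or.inr ⟨h, hs⟩⟩
  · have h2 : r = ((r.natAbs : ℕ) : ℤ) := by omega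
    rw [h2] at hLA
    obtain ⟨b, hb, hs⟩ := splits (by omega) hL hLA
    exact ⟨r, n, b, hr, hb, Or.inl ⟨h, hs⟩⟩

/-- **The genus bound.** -/
theorem genus_le {K : T.Knot} (P : T.Surface K) (hP : 2 ≤ T.comps P) :
    (T.genus K : ℤ) ≤ 2 * (T.g4 K + 1) * (T.th K + 2 * T.g4 K + 1) := by
  obtain ⟨r, n, b, -, -, h⟩ := exists_splits P hP
  rcases h with ⟨-, h⟩ | ⟨-, h⟩
  · have h1 := h.genus_le
    rw [T.genus_data] at h1
    exact h1
  · have h1 := h.genus_le
    rw [T.genus_mirror, T.g4_mirror, T.genus_data] at h1
    have h2 := th_mirror K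
    unfold th at h2
    rw [h2] at h1
    exact h1

/-- **The slope bound.** -/
theorem slope_le {K : T.Knot} (P : T.Surface K) (hP : 2 ≤ T.comps P)
    (hg : T.g4 K < T.genus K) : |T.slope P| ≤ 2 * T.th K + 4 * T.g4 K + 2 := by
  obtain ⟨r, n, b, hr, hnb, h⟩ := exists_splits P hP
  have h0 : (r.natAbs : ℤ) ≤ 2 * T.th K + 4 * T.g4 K + 2 := by
    rcases h with ⟨-, h⟩ | ⟨-, h⟩
    · have h1 := (h.bounds (by rw [T.genus_data]; exact hg)).1
      rw [← hnb] at h1
      exact h1
    · have h1 := (h.bounds (by rw [T.genus_mirror, T.g4_mirror, T.genus_data]; exact hg)).1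
      rw [← hnb, T.g4_mirror] at h1
      have h2 := th_mirror K
      unfold th at h2
      rw [h2] at h1
      exact h1
  rw [hr]
  rw [Int.natCast_natAbs] at h0
  exact_mod_cast h0

/-- An essential planar surface with at least three boundary components does not have the slope of
a cabling annulus. -/
theorem not_cabling {K : T.Knot} (P : T.Surface K) (hP : 3 ≤ T.comps P) :
    ¬ T.cabling K (T.slope P) := by
  intro h
  rcases T.cut P h with h2 | ⟨J, Q, hQ⟩
  · omega
  · obtain ⟨n, hn⟩ := T.slope_integral Q
    exact hQ n hn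

/-- **The slope bound for counterexamples to the question.** -/
theorem slope_le' {K : T.Knot} (P : T.Surface K) (hP : 3 ≤ T.comps P) :
    |T.slope P| ≤ 2 * T.th K + 4 * T.g4 K + 2 := by
  by_cases hg : T.g4 K < T.genus K
  · exact slope_le P (by omega) hg
  have hK : T.genus K ≠ 0 := by
    intro h
    have := T.comps_of_trivial P h
    omega
  obtain ⟨r, hr⟩ := T.slope_integral P
  have h1 := KnotTheory.reducible P (by omega)
  have h2 := not_cabling P hP
  rw [hr] at h1 h2
  have h3 := T.matignonSayari K r hK h2 h1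
  have hth : 0 ≤ T.th K := FloerData.th_nonneg
  have h4 : (T.genus K : ℤ) ≤ T.g4 K := by exact_mod_cast not_lt.mp hg
  have h5 : |r| ≤ 2 * T.th K + 4 * T.g4 K + 2 := by omega
  rw [hr]
  exact_mod_cast h5

/-- **The question has a positive answer for knots of large genus.** -/
theorem strong_of_lt {K : T.Knot}
    (h : 2 * (T.g4 K + 1) * (T.th K + 2 * T.g4 K + 1) < (T.genus K : ℤ)) :
    ∀ P : T.Surface K, T.comps P ≤ 1 := by
  intro P
  by_contra hcon
  have := genus_le P (by omega)
  linarith

/-- The knot `K` if the slope is positive and its mirror image if the slope is negative. -/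
noncomputable def side (T : FloerTheory) (K : T.Knot) (r : ℤ) : T.Knot :=
  if 0 < r then K else T.mirror K

/-- Every essential planar surface which is no disc gives a decomposition of a positive surgery. -/
theorem exists_splits_side {K : T.Knot} (P : T.Surface K) (hP : 2 ≤ T.comps P) :
    ∃ (r : ℤ) (a b : ℕ), T.slope P = r ∧ r.natAbs = a * b ∧ (T.data (T.side K r)).Splits a b := by
  obtain ⟨r, a, b, hr, hab, h⟩ := exists_splits P hP
  refine ⟨r, a, b, hr, hab, ?_⟩
  unfold side
  rcases h with ⟨h0, h⟩ | ⟨h0, h⟩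
  · rwa [if_pos h0]
  · rwa [if_neg h0.not_gt]

theorem g4_side (K : T.Knot) (r : ℤ) : (T.data (T.side K r)).g4 = T.g4 K := by
  unfold side
  split_ifs
  · rfl
  · exact T.g4_mirror K

/-- **The comparison with torus knots.** -/
theorem exists_torusV_le {K : T.Knot} (P : T.Surface K) (hP : 2 ≤ T.comps P) :
    ∃ (r : ℤ) (a b : ℕ), T.slope P = r ∧ |r| = a * b ∧ 2 ≤ a ∧ 1 ≤ b ∧ a.Coprime b ∧
      (2 ≤ b → ∀ i, 2 * i ≤ a * b → torusV a b i ≤ (T.data (T.side K r)).V i) := by
  obtain ⟨r, a, b, hr, hab, h⟩ := exists_splits_side P hP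
  refine ⟨r, a, b, hr, ?_, h.two_le, h.pos, h.coprime, fun hb => h.torusV_le hb⟩
  rw [← Int.natCast_natAbs, hab]
  push_cast
  rfl

end FloerTheory

end Pool.Agent.Helper23.FT
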