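import Mathlib

/-!
# Laurent polynomials whose coefficients have constant sums over the residue classes
-/

set_option autoImplicit false

namespace Pool.Agent.Helper23.FT

open Finset LaurentPolynomial

/-- The Laurent polynomial with the coefficients `f n` for `|n| ≤ g`. -/
noncomputable def poly (g : ℕ) (f : ℤ → ℤ) : LaurentPolynomial ℤ :=
  ∑ n ∈ Icc (-(g : ℤ)) g, C (f n) * T n

theorem coeff_poly {g : ℕ} {f : ℤ → ℤ} (hf : ∀ n, (g : ℤ) < |n| → f n = 0) (m : ℤ) :
    (poly g f).coeff m = f m := by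
  unfold poly
  rw [AddMonoidAlgebra.coeff_sum, Finset.sum_apply']
  have h1 : ∀ n : ℤ, (C (f n) * T n : LaurentPolynomial ℤ).coeff m = if n = m then f n else 0 := by
    intro n
    rw [← single_eq_C_mul_T, AddMonoidAlgebra.coeff_single, Finsupp.single_apply]
  simp only [h1]
  rw [Finset.sum_ite_eq' (Icc (-(g : ℤ)) g) m f]
  split_ifs with h2
  · rfl
  · rw [hf]
    rw [mem_Icc] at h2
    by_contra hcon
    rw [not_lt, abs_le] at hcon
    exact h2 hcon

theorem coeff_T_mul (k : ℤ) (p : LaurentPolynomial ℤ) (m : ℤ) :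
    (T k * p).coeff m = p.coeff (m - k) := by
  have h1 : (T k * p).coeff m = 1 * p.coeff (m - k) := by
    refine AddMonoidAlgebra.coeff_single_mul_eq_mul_coeff (m - k) ?_
    intro n _
    omega
  rw [h1, one_mul]

theorem finsum_classes {R : Type*} [AddCommMonoid R] {r : ℕ} [NeZero r] (f : ℤ → R)
    (hf : f.HasFiniteSupport) :
    ∑ᶠ n : ℤ, f n = ∑ c : Fin r, ∑ᶠ l : ℤ, f (c + l * r) := by
  rw [← finsum_comp_equiv ((Equiv.prodComm (Fin r) ℤ).trans (Int.divModEquiv r).symm)]
  rw [finsum_curry]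
  · rw [finsum_eq_sum_of_fintype]
    refine Finset.sum_congr rfl fun c _ => finsum_congr fun l => ?_
    simp [add_comm]
  · exact hf.comp_of_injective (Equiv.injective _)

/-- If the sums of the coefficients over the residue classes modulo `r` are equal then the product
with `T - 1` is divisible by `T ^ r - 1`. -/
theorem dvd_of_classes {r : ℕ} (hr : 0 < r) {g : ℕ} {f : ℤ → ℤ}
    (hf : ∀ n, (g : ℤ) < |n| → f n = 0) (κ : ℤ) (h : ∀ c : ℤ, ∑ᶠ l : ℤ, f (c + l * r) = κ) :
    (T r - 1 : LaurentPolynomial ℤ) ∣ (T 1 - 1) * poly g f := by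
  have : NeZero r := ⟨hr.ne'⟩
  rw [← Ideal.mem_span_singleton, ← Ideal.Quotient.eq_zero_iff_mem]
  set mk := Ideal.Quotient.mk (Ideal.span {(T r - 1 : LaurentPolynomial ℤ)}) with hmk
  have hT : mk (T r) = 1 := by
    have h1 : mk (T r - 1) = 0 :=
      Ideal.Quotient.eq_zero_iff_mem.mpr (Ideal.subset_span (Set.mem_singleton _))
    rw [map_sub, map_one] at h1
    exact sub_eq_zero.mp h1
  have hTn : ∀ n : ℕ, mk (T (n * r)) = 1 := by
    intro n
    rw [← T_pow, map_pow, hT, one_pow]
  have hTl : ∀ l : ℤ, mk (T (l * r)) = 1 := by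
    intro l
    obtain ⟨n, rfl | rfl⟩ := Int.eq_nat_or_neg l
    · exact hTn n
    · have h1 : (T (-(n : ℤ) * r) * T (n * r) : LaurentPolynomial ℤ) = 1 := by
        rw [← T_add, show -(n : ℤ) * r + n * r = 0 by ring, T_zero]
      have h2 := congrArg mk h1
      rw [map_mul, hTn, mul_one, map_one] at h2
      exact h2
  have hsupp : Function.HasFiniteSupport fun n : ℤ => (f n : ℤ) • mk (T n) := by
    refine (finite_toSet (Icc (-(g : ℤ)) g)).subset fun n hn => ?_
    rw [Function.mem_support] at hn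
    rw [mem_coe, mem_Icc, ← abs_le]
    by_contra hcon
    rw [hf n (not_le.mp hcon), zero_smul] at hn
    exact hn rfl
  have h1 : mk (poly g f) = ∑ᶠ n : ℤ, (f n : ℤ) • mk (T n) := by
    rw [finsum_eq_sum_of_support_subset (s := Icc (-(g : ℤ)) g)]
    · unfold poly
      rw [map_sum]
      refine Finset.sum_congr rfl fun n _ => ?_
      rw [← smul_eq_C_mul, map_zsmul]
    · intro n hn
      rw [Function.mem_support] at hn
      rw [mem_coe, mem_Icc, ← abs_le]
      by_contra hcon
      rw [hf n (not_le.mp hcon), zero_smul] at hn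
      exact hn rfl
  rw [finsum_classes (r := r) _ hsupp] at h1
  have h2 : ∀ c : Fin r, ∑ᶠ l : ℤ, (f (c + l * r) : ℤ) • mk (T (c + l * r))
      = κ • mk (T 1) ^ (c : ℕ) := by
    intro c
    have h3 : ∀ l : ℤ, (f (c + l * r) : ℤ) • mk (T (c + l * r))
        = (f (c + l * r) : ℤ) • mk (T 1) ^ (c : ℕ) := by
      intro l
      rw [T_add, map_mul, hTl, mul_one, ← map_pow, T_pow, mul_one]
    have h4 : Function.HasFiniteSupport fun l : ℤ => f (c + l * r) := by
      have h5 : Function.HasFiniteSupport f := by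
        refine (finite_toSet (Icc (-(g : ℤ)) g)).subset fun n hn => ?_
        rw [Function.mem_support] at hn
        rw [mem_coe, mem_Icc, ← abs_le]
        by_contra hcon
        exact hn (hf n (not_le.mp hcon))
      refine h5.comp_of_injective (g := fun l : ℤ => (c : ℤ) + l * r) fun l l' hl => ?_
      have hr' : (r : ℤ) ≠ 0 := by exact_mod_cast hr.ne'
      exact mul_right_cancel₀ hr' (add_left_cancel hl)
    rw [finsum_congr h3, ← finsum_smul' h4, h]
  rw [map_mul, h1, Finset.sum_congr rfl fun c _ => h2 c, ← Finset.smul_sum,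
    Fin.sum_univ_eq_sum_range (fun n => mk (T 1) ^ n) r, mul_smul_comm, map_sub, map_one,
    mul_geom_sum, ← map_pow, T_pow, mul_one, hT, sub_self, smul_zero]

end Pool.Agent.Helper23.FT
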