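import Pool.Agent.Helper23.FT.Window
import Pool.Agent.Helper23.FT.Laurent

/-!
# Knots with `V_0 = 0`

If `V_0(K) = 0` and a positive surgery on `K` splits off a lens space then the other summand is a
homology sphere and the Alexander polynomial is congruent to `1` modulo `(T - 1) (T ^ r - 1)`.
-/

set_option autoImplicit false

namespace Pool.Agent.Helper23.FT

open Finset LaurentPolynomial

namespace FloerData

variable {D : FloerData}

/-- The Euler characteristic of `H_red(A_s⁺)`. -/
noncomputable def euler (D : FloerData) (s : ℤ) : ℤ :=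
  ∑ δ ∈ Icc (min (D.dmin - 1) 0) (D.dmax - 1), ((s + δ).negOnePow : ℤ) * D.W s δ

theorem euler_neg (s : ℤ) : D.euler (-s) = D.euler s := by
  unfold euler
  refine Finset.sum_congr rfl fun δ _ => ?_
  rw [D.W_neg]
  congr 2
  rw [Int.negOnePow_add, Int.negOnePow_add, Int.negOnePow_neg]

theorem euler_eq_zero (s : ℤ) (h : (D.genus : ℤ) ≤ |s|) : D.euler s = 0 := by
  unfold euler
  refine Finset.sum_eq_zero fun δ _ => ?_
  rw [D.W_eq_zero s δ h, Nat.cast_zero, mul_zero]

theorem V_eq (hV : D.V 0 = 0) (i : ℕ) : D.V i = 0 := by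
  have : D.V i ≤ D.V 0 := antitone_nat_of_succ_le D.V_succ_le (Nat.zero_le i)
  omega

/-- The formula for the ranks if all the `V_s` are zero. -/
theorem redRank_eq (hV : D.V 0 = 0) (r i : ℕ) (q : ℤ) :
    D.redRank r i q = ∑ l ∈ Icc (-(D.genus : ℤ)) D.genus,
      D.W (i + l * r) (q - (l ^ 2 * r + (2 * l + 1) * i)) := by
  unfold redRank
  refine Finset.sum_congr rfl fun l _ => ?_
  have h1 : ∀ s δ : ℤ, D.tail s δ = 0 := by
    intro s δ
    unfold tail
    rw [if_neg]
    rintro ⟨j, h1, h2, -⟩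
    rw [V_eq hV] at h2
    omega
  rw [V_eq hV, h1]
  simp

theorem abs_lt_of_lt {r i : ℕ} (hr : 0 < r) (hi : 2 * i ≤ r) {l : ℤ}
    (h : |(i : ℤ) + l * r| < D.genus) : l ∈ Icc (-(D.genus : ℤ)) D.genus := by
  have hr' : (1 : ℤ) ≤ r := by exact_mod_cast hr
  have hi' : 2 * (i : ℤ) ≤ r := by exact_mod_cast hi
  rw [abs_lt] at h
  rw [mem_Icc]
  constructor
  · by_contra hcon
    have h1 : l + 1 ≤ -(D.genus : ℤ) := by omega
    nlinarith
  · by_contra hcon
    nlinarith

/-- The alternating sum of the ranks. -/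
theorem sum_euler (hV : D.V 0 = 0) {r i : ℕ} (hr : 0 < r) (hi : 2 * i ≤ r) :
    ∑ᶠ l : ℤ, D.euler (i + l * r) = ∑ᶠ q : ℤ, (q.negOnePow : ℤ) * D.redRank r i q := by
  have hfin : ∀ s e : ℤ, Function.HasFiniteSupport
      fun q : ℤ => (q.negOnePow : ℤ) * (D.W s (q - e) : ℤ) := by
    intro s e
    refine (finite_toSet (Icc (min (D.dmin - 1) 0 + e) (D.dmax - 1 + e))).subset fun q hq => ?_
    rw [Function.mem_support] at hq
    have h1 : D.W s (q - e) ≠ 0 := by
      intro hcon
      rw [hcon, Nat.cast_zero, mul_zero] at hq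
      exact hq rfl
    have h2 := D.W_window _ _ h1
    rw [mem_coe, mem_Icc]
    omega
  have h1 : ∀ q : ℤ, (q.negOnePow : ℤ) * D.redRank r i q
      = ∑ l ∈ Icc (-(D.genus : ℤ)) D.genus,
        (q.negOnePow : ℤ) * (D.W (i + l * r) (q - (l ^ 2 * r + (2 * l + 1) * i)) : ℤ) := by
    intro q
    rw [redRank_eq hV, Nat.cast_sum, Finset.mul_sum]
  rw [finsum_congr h1, finsum_sum_comm _ _ fun l _ => hfin _ _]
  rw [finsum_eq_sum_of_support_subset (s := Icc (-(D.genus : ℤ)) D.genus)]
  · refine Finset.sum_congr rfl fun l _ => ?_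
    set e : ℤ := l ^ 2 * r + (2 * l + 1) * i with he
    rw [← finsum_comp_equiv (Equiv.addRight e)]
    rw [finsum_eq_sum_of_support_subset (s := Icc (min (D.dmin - 1) 0) (D.dmax - 1))]
    · unfold euler
      refine Finset.sum_congr rfl fun δ _ => ?_
      rw [Equiv.coe_addRight, add_sub_cancel_right]
      congr 2
      rw [Int.negOnePow_eq_iff]
      refine ⟨-(l * (l - 1) / 2 * r) - l * i, ?_⟩
      have h2 : 2 * (l * (l - 1) / 2) = l * (l - 1) := by
        refine Int.mul_ediv_cancel' ?_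
        have h3 := Int.even_mul_succ_self (l - 1)
        rw [sub_add_cancel] at h3
        rw [mul_comm]
        exact h3.two_dvd
      rw [he]
      linear_combination (r : ℤ) * h2
    · intro δ hδ
      rw [Function.mem_support, Equiv.coe_addRight, add_sub_cancel_right] at hδ
      have h1 : D.W (i + l * r) δ ≠ 0 := by
        intro hcon
        rw [hcon, Nat.cast_zero, mul_zero] at hδ
        exact hδ rfl
      rw [mem_coe, mem_Icc]
      exact D.W_window _ _ h1
  · intro l hl
    rw [Function.mem_support] at hl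
    rw [mem_coe]
    refine abs_lt_of_lt hr hi ?_
    by_contra hcon
    exact hl (euler_eq_zero _ (not_lt.mp hcon))

/-- If `V_0 = 0` then the second summand is a homology sphere. -/
theorem Splits.eq_one {a b : ℕ} (h : D.Splits a b) (hV : D.V 0 = 0) : b = 1 := by
  by_contra hcon
  have hb : 2 ≤ b := by
    have := h.pos
    omega
  have h1 := h.torusV_le hb 0 (Nat.zero_le _)
  have hne : a ≠ b := by
    rintro rfl
    have := h.coprime
    rw [Nat.coprime_self] at this
    omega
  have h2 : 2 ≤ (a - 1) * (b - 1) := by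
    rcases Nat.lt_or_ge a b with h2 | h2
    · have h3 : 1 * 2 ≤ (a - 1) * (b - 1) :=
        Nat.mul_le_mul (by have := h.two_le; omega) (by have := h.two_le; omega)
      omega
    · have h3 : 2 * 1 ≤ (a - 1) * (b - 1) := Nat.mul_le_mul (by omega) (by omega)
      omega
  have h3 := torusV_pos h.two_le hb h.coprime 0 (by omega)
  omega

/-- All sums of the Euler characteristics over the classes modulo `r` are equal. -/
theorem Splits.classes {a b : ℕ} (h : D.Splits a b) (hV : D.V 0 = 0) :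
    ∃ κ : ℤ, ∀ c : ℤ, ∑ᶠ l : ℤ, D.euler (c + l * a) = κ := by
  have hb := h.eq_one hV
  subst hb
  obtain ⟨N, hN1, hN2⟩ := h.exists_red
  have ha : 0 < a := by have := h.two_le; omega
  have hall : ∀ i j : ℤ, ∀ q, N i q = N j q := by
    intro i j q
    have h1 : Function.Periodic (fun i => N i q) ((1 : ℕ) : ℤ) := fun i => hN1 i q
    have h2 : N (j + (i - j) * ((1 : ℕ) : ℤ)) q = N j q := h1.int_mul (i - j) j
    rw [← h2]
    congr 1
    push_cast
    ring
  refine ⟨∑ᶠ q : ℤ, (q.negOnePow : ℤ) * N 0 q, fun c => ?_⟩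
  obtain ⟨i, k, hi, hik⟩ := exists_class ha c
  have h1 : ∑ᶠ l : ℤ, D.euler (i + l * a) = ∑ᶠ q : ℤ, (q.negOnePow : ℤ) * N 0 q := by
    rw [sum_euler hV ha hi]
    refine finsum_congr fun q => ?_
    have h2 := (hN2 i q (by omega)).1
    rw [mul_one] at h2
    rw [← h2, hall i 0 q]
  rw [← h1]
  rcases hik with h2 | h2
  · rw [← finsum_comp_equiv (Equiv.addRight (-k))]
    refine finsum_congr fun l => ?_
    rw [Equiv.coe_addRight, h2]
    congr 1
    ring
  · rw [← finsum_comp_equiv ((Equiv.neg ℤ).trans (Equiv.addRight (-k)))]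
    refine finsum_congr fun l => ?_
    rw [Equiv.trans_apply, Equiv.neg_apply, Equiv.coe_addRight, h2, ← euler_neg]
    congr 1
    ring

/-- The comparison of two classes if all `V_s` are zero. -/
theorem compare_zero (hV : D.V 0 = 0) (hd : D.dmin ≤ 0) (hg : 0 < D.genus) {r i j : ℕ}
    (hr : 0 < r) (hi : 2 * i ≤ r) (l : ℤ) (hl : |(i : ℤ) + l * r| = D.genus - 1)
    (h : ∀ q, D.redRank r j q = D.redRank r i q) :
    ∃ k : ℤ, |(j : ℤ) + k * r| ≤ D.genus - 1 ∧
      l ^ 2 * r + (2 * l + 1) * i ≤ k ^ 2 * r + (2 * k + 1) * j + D.th := by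
  obtain ⟨δ, hδ⟩ := D.W_top hg (V_eq hV _)
  have h1 : D.W (i + l * r) δ ≠ 0 := by
    rw [Nat.cast_sub (by omega)] at hδ
    push_cast at hδ
    rw [← hl] at hδ
    rcases abs_choice ((i : ℤ) + l * r) with h2 | h2
    · rwa [h2] at hδ
    · rw [h2, D.W_neg] at hδ
      exact hδ
  have h2 := redRank_ne_zero hr hi h1
  rw [← h, redRank_eq hV] at h2
  obtain ⟨k, -, hk⟩ := Finset.exists_ne_zero_of_sum_ne_zero h2
  refine ⟨k, ?_, ?_⟩
  · by_contra hcon
    exact hk (D.W_eq_zero _ _ (by omega))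
  · have h3 := D.W_window _ _ hk
    have h4 := D.W_window _ _ h1
    rw [V_eq hV i] at h3
    unfold th
    rw [min_eq_left (by omega)] at h3 h4
    push_cast at h3
    linarith

/-- The bounds if all `V_s` are zero. -/
theorem Splits.bounds_zero {a b : ℕ} (h : D.Splits a b) (hV : D.V 0 = 0) (hd : D.dmin ≤ 0)
    (hg : 0 < D.genus) : (a : ℤ) ≤ 2 * D.th + 1 ∧ (D.genus : ℤ) ≤ 2 * D.th + 2 := by
  have hb := h.eq_one hV
  subst hb
  obtain ⟨N, hN1, hN2⟩ := h.exists_red
  have ha2 := h.two_le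
  have ha : 0 < a := by omega
  have hall : ∀ i j : ℤ, ∀ q, N i q = N j q := by
    intro i j q
    have h1 : Function.Periodic (fun i => N i q) ((1 : ℕ) : ℤ) := fun i => hN1 i q
    have h2 : N (j + (i - j) * ((1 : ℕ) : ℤ)) q = N j q := h1.int_mul (i - j) j
    rw [← h2]
    congr 1
    push_cast
    ring
  obtain ⟨i, k, hi, hik⟩ := exists_class ha (D.genus - 1)
  obtain ⟨l, hl⟩ : ∃ l : ℤ, |(i : ℤ) + l * a| = D.genus - 1 := by
    rcases hik with h1 | h1
    · refine ⟨k, ?_⟩
      rw [← h1, abs_of_nonneg (by omega)]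
    · refine ⟨-k, ?_⟩
      rw [show (i : ℤ) + -k * a = -((D.genus : ℤ) - 1) by rw [h1]; ring, abs_neg,
        abs_of_nonneg (by omega)]
  set m := a / 2 with hm
  have key : ∀ j : ℕ, 2 * j ≤ a → ∀ q, D.redRank a j q = D.redRank a i q := by
    intro j hj q
    have h1 := (hN2 j q (by omega)).1
    have h2 := (hN2 i q (by omega)).1
    rw [mul_one] at h1 h2
    rw [← h1, ← h2]
    exact hall _ _ q
  have h0 := compare_zero hV hd hg ha hi l hl (key 0 (by omega))
  have h1 := compare_zero hV hd hg ha hi l hl (key m (by omega))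
  obtain ⟨h2, h3⟩ := arith_one (r := a) (m := m) (by omega) (by omega) (by omega) hl h0 h1
  constructor
  · omega
  · linarith

end FloerData

/-- The numerical invariants together with the Alexander polynomial. -/
structure AlexData extends FloerData where
  /-- the coefficients of the symmetric Alexander polynomial -/
  alex : ℤ → ℤ
  alex_neg : ∀ j, alex (-j) = alex j
  alex_eq_zero : ∀ j : ℤ, (genus : ℤ) < |j| → alex j = 0
  alex_one : ∑ j ∈ Icc (-(genus : ℤ)) genus, alex j = 1
  /-- the torsion coefficient `t_s = ∑ j a_(s + j)` is `V_s` plus the Euler characteristic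
  of `H_red(A_s⁺)` (Ozsváth and Szabó 2004) -/
  torsion : ∀ s : ℕ, ∑ j ∈ Icc 1 genus, (j : ℤ) * alex (s + j) = V s + toFloerData.euler s

namespace AlexData

variable {D : AlexData}

/-- The Alexander polynomial. -/
noncomputable def polynomial (D : AlexData) : LaurentPolynomial ℤ := poly D.genus D.alex

theorem sum_shift (D : AlexData) (n : ℕ) :
    (∑ j ∈ Icc 1 D.genus, (j : ℤ) * D.alex (n + j))
      - (∑ j ∈ Icc 1 D.genus, (j : ℤ) * D.alex ((n + 1 : ℕ) + j))
      = ∑ j ∈ Icc 1 D.genus, D.alex (n + j) := by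
  have h1 : ∀ G : ℕ, (∑ j ∈ Icc 1 G, (j : ℤ) * D.alex (n + j))
      - (∑ j ∈ Icc 1 G, (j : ℤ) * D.alex ((n + 1 : ℕ) + j))
      = (∑ j ∈ Icc 1 G, D.alex (n + j)) - G * D.alex (n + G + 1) := by
    intro G
    induction G with
    | zero => simp
    | succ G ih =>
      rw [Finset.sum_Icc_succ_top (by omega), Finset.sum_Icc_succ_top (by omega),
        Finset.sum_Icc_succ_top (by omega)]
      push_cast
      push_cast at ih
      rw [show (n : ℤ) + 1 + (G + 1) = n + (G + 1) + 1 by ring,
        show (n : ℤ) + (G + 1) = n + G + 1 by ring]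
      linear_combination ih
  rw [h1, D.alex_eq_zero, mul_zero, sub_zero]
  rw [abs_of_nonneg (by positivity)]
  omega

theorem sum_shift' (D : AlexData) (n : ℕ) :
    (∑ j ∈ Icc 1 D.genus, D.alex (n + j))
      - (∑ j ∈ Icc 1 D.genus, D.alex ((n + 1 : ℕ) + j)) = D.alex (n + 1) := by
  have h1 : ∀ G : ℕ, (∑ j ∈ Icc 1 G, D.alex (n + j))
      - (∑ j ∈ Icc 1 G, D.alex ((n + 1 : ℕ) + j)) = D.alex (n + 1) - D.alex (n + G + 1) := by
    intro G
    induction G with
    | zero => simp
    | succ G ih =>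
      rw [Finset.sum_Icc_succ_top (by omega), Finset.sum_Icc_succ_top (by omega)]
      push_cast
      push_cast at ih
      rw [show (n : ℤ) + 1 + (G + 1) = n + (G + 1) + 1 by ring,
        show (n : ℤ) + (G + 1) = n + G + 1 by ring]
      linear_combination ih
  rw [h1, D.alex_eq_zero (n + D.genus + 1), sub_zero]
  rw [abs_of_nonneg (by positivity)]
  omega

/-- The second difference of the torsion coefficients. -/
theorem euler_diff (hV : D.V 0 = 0) (s : ℤ) :
    D.euler (s - 1) - 2 * D.euler s + D.euler (s + 1) = D.alex s - if s = 0 then 1 else 0 := by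
  have ht : ∀ n : ℕ, D.euler n = ∑ j ∈ Icc 1 D.genus, (j : ℤ) * D.alex (n + j) := by
    intro n
    rw [D.torsion n, FloerData.V_eq hV n, Nat.cast_zero, zero_add]
  have hpos : ∀ n : ℕ, D.euler ((n + 1 : ℕ) - 1 : ℤ) - 2 * D.euler (n + 1 : ℕ)
      + D.euler ((n + 1 : ℕ) + 1 : ℤ) = D.alex (n + 1 : ℕ) := by
    intro n
    have h1 := sum_shift D n
    have h2 := sum_shift D (n + 1)
    have h3 := sum_shift' D n
    rw [← ht n, ← ht (n + 1)] at h1
    rw [← ht (n + 1), ← ht (n + 1 + 1)] at h2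
    rw [show (((n + 1 : ℕ) : ℤ) - 1) = (n : ℕ) by push_cast; ring,
      show (((n + 1 : ℕ) : ℤ) + 1) = ((n + 1 + 1 : ℕ) : ℤ) by push_cast; ring,
      show ((n + 1 : ℕ) : ℤ) = n + 1 by push_cast; ring] at *
    linarith
  rcases lt_trichotomy s 0 with h | h | h
  · obtain ⟨n, hn⟩ : ∃ n : ℕ, -s = (n + 1 : ℕ) := ⟨(-s - 1).toNat, by omega⟩
    have h1 := hpos n
    rw [← hn] at h1
    rw [if_neg h.ne, sub_zero, ← D.alex_neg s, ← h1, ← FloerData.euler_neg (s - 1),
      ← FloerData.euler_neg s, ← FloerData.euler_neg (s + 1),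
      show -(s - 1) = -s + 1 by ring, show -(s + 1) = -s - 1 by ring]
    ring
  · subst h
    have h1 := sum_shift D 0
    rw [← ht 0, ← ht (0 + 1)] at h1
    have h2 : D.euler (0 - 1) = D.euler (0 + 1) := by
      rw [← FloerData.euler_neg]
      norm_num
    have h3 : ∑ j ∈ Icc (-(D.genus : ℤ)) D.genus, D.alex j
        = D.alex 0 + 2 * ∑ j ∈ Icc 1 D.genus, D.alex ((0 : ℕ) + j) := by
      have h4 : ∀ G : ℕ, ∑ j ∈ Icc (-(G : ℤ)) G, D.alex j
          = D.alex 0 + 2 * ∑ j ∈ Icc 1 G, D.alex ((0 : ℕ) + j) := by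
        intro G
        induction G with
        | zero => simp
        | succ G ih =>
          rw [Finset.sum_Icc_succ_top (by omega)]
          have h5 : Icc (-((G + 1 : ℕ) : ℤ)) ((G + 1 : ℕ) : ℤ)
              = insert (-((G : ℤ) + 1)) (insert ((G : ℤ) + 1) (Icc (-(G : ℤ)) G)) := by
            ext x
            simp only [mem_Icc, mem_insert]
            push_cast
            omega
          rw [h5, Finset.sum_insert, Finset.sum_insert, ih, D.alex_neg]
          · push_cast
            rw [zero_add]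
            ring
          · rw [mem_Icc]
            omega
          · rw [mem_insert, mem_Icc]
            omega
      exact h4 D.genus
    rw [D.alex_one] at h3
    rw [if_pos rfl, h2]
    push_cast at h1 h3 ⊢
    linarith
  · obtain ⟨n, hn⟩ : ∃ n : ℕ, s = (n + 1 : ℕ) := ⟨(s - 1).toNat, by omega⟩
    have h1 := hpos n
    rw [← hn] at h1
    rw [if_neg h.ne', sub_zero, ← h1]

/-- The Alexander polynomial in terms of the torsion coefficients. -/
theorem polynomial_sub_one (hV : D.V 0 = 0) :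
    D.polynomial - 1 = T (-1) * (T 1 - 1) * ((T 1 - 1) * poly D.genus D.toFloerData.euler) := by
  have hc : ∀ m, (poly D.genus D.toFloerData.euler).coeff m = D.euler m :=
    coeff_poly fun n hn => FloerData.euler_eq_zero n hn.le
  have h1 : T (-1) * (T 1 - 1) * ((T 1 - 1) * poly D.genus D.toFloerData.euler)
      = T 1 * poly D.genus D.toFloerData.euler - 2 * poly D.genus D.toFloerData.euler
        + T (-1) * poly D.genus D.toFloerData.euler := by
    have h2 : (T (-1) * T 1 : LaurentPolynomial ℤ) = 1 := by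
      rw [← T_add]
      simp
    linear_combination (T 1 * poly D.genus D.toFloerData.euler
      - 2 * poly D.genus D.toFloerData.euler) * h2
  rw [h1]
  ext m
  have h3 := euler_diff hV m
  unfold polynomial
  rw [AddMonoidAlgebra.coeff_sub, Finsupp.sub_apply, coeff_poly D.alex_eq_zero,
    AddMonoidAlgebra.coeff_add, Finsupp.add_apply, AddMonoidAlgebra.coeff_sub, Finsupp.sub_apply,
    coeff_T_mul, coeff_T_mul, two_mul, AddMonoidAlgebra.coeff_add, Finsupp.add_apply, hc, hc, hc,
    sub_neg_eq_add]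
  have h4 : (1 : LaurentPolynomial ℤ).coeff m = if m = 0 then 1 else 0 := by
    rw [← T_zero, T_apply]
    simp [eq_comm]
  rw [h4, ← h3]
  ring

/-- **The Alexander polynomial.** -/
theorem dvd_polynomial_sub_one {a b : ℕ} (h : D.Splits a b) (hV : D.V 0 = 0) :
    (T 1 - 1) * (T a - 1) ∣ D.polynomial - 1 := by
  obtain ⟨κ, hκ⟩ := h.classes hV
  have h1 := dvd_of_classes (r := a) (by have := h.two_le; omega)
    (fun n hn => FloerData.euler_eq_zero n hn.le) κ hκ
  rw [polynomial_sub_one hV]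
  obtain ⟨c, hc⟩ := h1
  rw [hc]
  exact ⟨T (-1) * c, by ring⟩

end AlexData

end Pool.Agent.Helper23.FT
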