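import Pool.Agent.Helper23.FT.Theory
import Pool.Agent.Helper23.FT.Alex

/-!
# Heegaard Floer homology and the Alexander polynomial
-/

set_option autoImplicit false

namespace Pool.Agent.Helper23.FT

open Pool.Agent.Helper87.SC LaurentPolynomial

namespace FloerTheory

variable {T : FloerTheory}

/-- **Knots with `V_0 = 0` on both sides.** -/
theorem bounds_of_V_eq_zero {K : T.Knot} (P : T.Surface K) (hP : 2 ≤ T.comps P)
    (h1 : (T.data K).V 0 = 0) (h2 : (T.data (T.mirror K)).V 0 = 0) :
    |T.slope P| ≤ 2 * T.th K + 1 ∧ (T.genus K : ℤ) ≤ 2 * T.th K + 2 := by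
  have hg : 0 < T.genus K := by
    by_contra h
    have := T.comps_of_trivial P (by omega)
    omega
  obtain ⟨r, n, b, hr, hnb, h⟩ := exists_splits P hP
  have hd1 : (T.data K).dmin ≤ 0 := by
    have := T.dmin_le K
    rw [h2] at this
    simpa using this
  have hd2 : (T.data (T.mirror K)).dmin ≤ 0 := by
    have := T.dmin_le (T.mirror K)
    rw [T.mirror_mirror, h1] at this
    simpa using this
  have key : (r.natAbs : ℤ) ≤ 2 * T.th K + 1 ∧ (T.genus K : ℤ) ≤ 2 * T.th K + 2 := by
    rcases h with ⟨-, h⟩ | ⟨-, h⟩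
    · have h3 := h.bounds_zero h1 hd1 (by rw [T.genus_data]; exact hg)
      rw [h.eq_one h1, mul_one] at hnb
      rw [hnb]
      rw [T.genus_data] at h3
      exact h3
    · have h3 := h.bounds_zero h2 hd2 (by rw [T.genus_mirror, T.genus_data]; exact hg)
      rw [h.eq_one h2, mul_one] at hnb
      rw [hnb]
      have h4 := th_mirror K
      unfold th at h4
      rw [T.genus_mirror, T.genus_data, h4] at h3
      exact h3
  refine ⟨?_, key.2⟩
  have h5 := key.1
  rw [hr]
  rw [Int.natCast_natAbs] at h5
  exact_mod_cast h5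

/-- The knots with vanishing slice genus. -/
theorem V_eq_zero_of_slice {K : T.Knot} (h : T.g4 K = 0) :
    (T.data K).V 0 = 0 ∧ (T.data (T.mirror K)).V 0 = 0 := by
  have h1 : (T.data K).g4 = 0 := h
  refine ⟨(T.data K).V_eq_zero 0 (by omega), (T.data (T.mirror K)).V_eq_zero 0 ?_⟩
  rw [T.g4_mirror]
  omega

end FloerTheory

/-- Knots in the 3-sphere, Heegaard Floer homology and the Alexander polynomial. -/
structure AlexTheory extends FloerTheory where
  /-- the numerical invariants together with the Alexander polynomial -/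
  adata : Knot → AlexData
  adata_eq : ∀ K, (adata K).toFloerData = data K
  alex_mirror : ∀ K, (adata (mirror K)).polynomial = (adata K).polynomial

namespace AlexTheory

variable (T : AlexTheory)

/-- The Alexander polynomial. -/
noncomputable def alexander (K : T.Knot) : LaurentPolynomial ℤ := (T.adata K).polynomial

variable {T}

theorem alexander_side (K : T.Knot) (r : ℤ) : T.alexander (T.side K r) = T.alexander K := by
  unfold FloerTheory.side
  split_ifs
  · rfl
  · exact T.alex_mirror K

/-- The Alexander polynomial of a knot with `V_0 = 0`. -/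
theorem dvd_alexander {J : T.Knot} {a b : ℕ} (h : (T.data J).Splits a b)
    (hV : (T.data J).V 0 = 0) : (LaurentPolynomial.T 1 - 1) * (LaurentPolynomial.T a - 1)
      ∣ T.alexander J - 1 := by
  have h3 : (T.adata J).toFloerData.Splits a b := by
    rw [T.adata_eq]
    exact h
  have h4 : (T.adata J).V 0 = 0 := by
    have h5 := T.adata_eq J
    have h6 : (T.adata J).toFloerData.V 0 = (T.data J).V 0 := by rw [h5]
    rw [h6]
    exact hV
  exact AlexData.dvd_polynomial_sub_one h3 h4

/-- **Knots with `V_0 = 0` on both sides.** -/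
theorem of_V_eq_zero {K : T.Knot} (P : T.Surface K) (hP : 2 ≤ T.comps P)
    (h1 : (T.data K).V 0 = 0) (h2 : (T.data (T.mirror K)).V 0 = 0) :
    ∃ r : ℤ, T.slope P = r ∧ 2 ≤ |r| ∧ |r| ≤ 2 * T.th K + 1 ∧
      (T.genus K : ℤ) ≤ 2 * T.th K + 2 ∧
      (LaurentPolynomial.T 1 - 1) * (LaurentPolynomial.T |r| - 1) ∣ T.alexander K - 1 := by
  obtain ⟨r, a, b, hr, hab, h⟩ := FloerTheory.exists_splits_side P hP
  have hV : (T.data (T.side K r)).V 0 = 0 := by
    unfold FloerTheory.side
    split_ifs
    · exact h1
    · exact h2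
  have hb := h.eq_one hV
  rw [hb, mul_one] at hab
  have habs : |r| = a := by rw [← hab, Int.natCast_natAbs]
  obtain ⟨h3, h4⟩ := FloerTheory.bounds_of_V_eq_zero P hP h1 h2
  rw [hr] at h3
  have h5 := dvd_alexander h hV
  rw [alexander_side] at h5
  have h6 := h.two_le
  refine ⟨r, hr, ?_, by exact_mod_cast h3, h4, ?_⟩
  · rw [habs]
    exact_mod_cast h6
  · rw [habs]
    exact h5

end AlexTheory

end Pool.Agent.Helper23.FT
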