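import Pool.Agent.Helper23.FT.Grid

/-!
# The torus knot is the least knot whose surgery splits

If the `d`-invariants of the `a b`-surgery on a knot are sums of a function of the residue modulo `a`
and a function of the residue modulo `b`, then the invariants `V_i` of the knot are at least those of
the torus knot `T(a, b)`.
-/

set_option autoImplicit false

namespace Pool.Agent.Helper23.FT

open Finset

/-- The invariant `V_i` of the torus knot `T(a, b)`: the number of the gaps of the semigroup
generated by `a` and `b` which are at least `i + (a - 1) (b - 1) / 2`. -/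
noncomputable def torusV (a b i : ℕ) : ℕ :=
  open scoped Classical in
  ((range (a * b)).filter fun n : ℕ => ¬ InSemi a b n ∧ (a - 1) * (b - 1) / 2 + i ≤ n).card

/-- The number of the gaps in terms of an indicator. -/
noncomputable def gap (a b : ℕ) (n : ℤ) : ℤ :=
  open scoped Classical in if InSemi a b n then 0 else 1

/-- Twice the genus of the torus knot. -/
theorem two_genus {a b : ℕ} (ha : 2 ≤ a) (hb : 2 ≤ b) (h : a.Coprime b) :
    (2 : ℤ) * (((a - 1) * (b - 1) / 2 : ℕ) : ℤ) = a * b - a - b + 1 := by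
  have h2 : 2 ∣ (a - 1) * (b - 1) := by
    rcases Nat.even_or_odd a with h1 | h1
    · rcases Nat.even_or_odd b with h3 | h3
      · exfalso
        have := Nat.dvd_gcd h1.two_dvd h3.two_dvd
        rw [h] at this
        omega
      · obtain ⟨k, hk⟩ := h3
        exact Dvd.dvd.mul_left ⟨k, by omega⟩ _
    · obtain ⟨k, hk⟩ := h1
      exact Dvd.dvd.mul_right ⟨k, by omega⟩ _
  have h3 : 2 * ((a - 1) * (b - 1) / 2) = (a - 1) * (b - 1) := Nat.mul_div_cancel' h2
  have h4 : (2 : ℤ) * (((a - 1) * (b - 1) / 2 : ℕ) : ℤ) = ((a - 1) * (b - 1) : ℕ) := by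
    exact_mod_cast h3
  rw [h4]
  push_cast [Nat.cast_sub (show 1 ≤ a by omega), Nat.cast_sub (show 1 ≤ b by omega)]
  ring

theorem torusV_step {a b : ℕ} (ha : 2 ≤ a) (hb : 2 ≤ b) (h : a.Coprime b) (i : ℕ)
    (hi : 2 * (i + 1) ≤ a * b) :
    (torusV a b i : ℤ) - torusV a b (i + 1) = gap a b (((a - 1) * (b - 1) / 2 : ℕ) + i) := by
  classical
  set g := (a - 1) * (b - 1) / 2 with hg
  have h2 := two_genus ha hb h
  rw [← hg] at h2
  have hlt : g + i < a * b := by
    zify
    have : (2 : ℤ) * (i + 1) ≤ a * b := by exact_mod_cast hi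
    have : (2 : ℤ) ≤ a := by exact_mod_cast ha
    linarith
  have key : (range (a * b)).filter (fun n : ℕ => ¬ InSemi a b n ∧ g + i ≤ n)
      = (range (a * b)).filter (fun n : ℕ => ¬ InSemi a b n ∧ g + (i + 1) ≤ n) ∪
        (if InSemi a b ((g + i : ℕ) : ℤ) then ∅ else {g + i}) := by
    ext n
    simp only [mem_union, mem_filter, mem_range]
    constructor
    · rintro ⟨h3, h4, h5⟩
      rcases Nat.lt_or_ge (g + i) n with h6 | h6
      · exact Or.inl ⟨h3, h4, by omega⟩
      · have : n = g + i := le_antisymm h6 h5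
        subst this
        right
        rw [if_neg h4]
        exact mem_singleton_self _
    · rintro (⟨h3, h4, h5⟩ | h3)
      · exact ⟨h3, h4, by omega⟩
      · split_ifs at h3 with h4
        · simp at h3
        · rw [mem_singleton] at h3
          subst h3
          exact ⟨hlt, h4, le_refl _⟩
  have hdisj : Disjoint ((range (a * b)).filter (fun n : ℕ => ¬ InSemi a b n ∧ g + (i + 1) ≤ n))
      (if InSemi a b ((g + i : ℕ) : ℤ) then ∅ else {g + i}) := by
    split_ifs
    · exact disjoint_empty_right _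
    · rw [disjoint_singleton_right, mem_filter]
      omega
  have hcard := congrArg Finset.card key
  rw [card_union_of_disjoint hdisj] at hcard
  have h5 : ((if InSemi a b ((g + i : ℕ) : ℤ) then (∅ : Finset ℕ) else {g + i}).card : ℤ)
      = gap a b ((g : ℕ) + i) := by
    unfold gap
    push_cast
    split_ifs <;> simp
  rw [← h5]
  unfold torusV
  rw [← hg]
  have h6 := congrArg (Nat.cast : ℕ → ℤ) hcard
  rw [Nat.cast_add] at h6
  linarith

/-- There are no gaps from `2 g` on. -/
theorem torusV_eq_zero {a b : ℕ} (ha : 2 ≤ a) (hb : 2 ≤ b) (h : a.Coprime b) (i : ℕ)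
    (hi : (a - 1) * (b - 1) / 2 ≤ i) : torusV a b i = 0 := by
  classical
  set g := (a - 1) * (b - 1) / 2 with hg
  have h2 := two_genus ha hb h
  rw [← hg] at h2
  unfold torusV
  rw [← hg, card_eq_zero, filter_eq_empty_iff]
  rintro n hn ⟨h3, h4⟩
  rw [mem_range] at hn
  obtain ⟨u, v, huv⟩ : ∃ u v : ℤ, (a : ℤ) * u + b * v = 1 := by
    have := Nat.isCoprime_iff_coprime.mpr h
    obtain ⟨u, v, huv⟩ := this
    exact ⟨u, v, by linarith⟩
  rcases tt_eq (by omega) (by omega) huv (n := n) (by positivity) (by exact_mod_cast hn) with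
    ⟨h5, _⟩ | ⟨_, h5⟩
  · exact h3 h5
  · have h6 := tt_le (u := u) (v := v) (a := a) (b := b) (by omega) (by omega) n
    rw [h5] at h6
    have h7 : (g : ℤ) + i ≤ n := by exact_mod_cast h4
    have h8 : (g : ℤ) ≤ i := by exact_mod_cast hi
    linarith

/-- The largest gap shows that `V_i` is positive for `i < (a - 1) (b - 1) / 2`. -/
theorem torusV_pos {a b : ℕ} (ha : 2 ≤ a) (hb : 2 ≤ b) (h : a.Coprime b) (i : ℕ)
    (hi : i < (a - 1) * (b - 1) / 2) : 0 < torusV a b i := by
  classical
  set g := (a - 1) * (b - 1) / 2 with hg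
  have h2 := two_genus ha hb h
  rw [← hg] at h2
  unfold torusV
  rw [← hg, card_pos]
  have hab : a + b ≤ a * b := by nlinarith
  refine ⟨2 * g - 1, ?_⟩
  rw [mem_filter, mem_range]
  refine ⟨?_, ?_, by omega⟩
  · zify
    rw [Nat.cast_sub (by omega)]
    push_cast
    have : (2 : ℤ) ≤ a := by exact_mod_cast ha
    linarith
  · intro hcon
    obtain ⟨u, v, huv⟩ : ∃ u v : ℤ, (a : ℤ) * u + b * v = 1 := by
      have := Nat.isCoprime_iff_coprime.mpr h
      obtain ⟨u, v, huv⟩ := this
      exact ⟨u, v, by linarith⟩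
    have h3 : (((2 * g - 1 : ℕ) : ℤ)) = a * b - a - b - 0 := by
      rw [Nat.cast_sub (by omega)]
      push_cast
      linarith
    have h4 := tt_rev (by omega) (by omega) huv 0
    have h5 : tt a b u v 0 = 0 := by
      unfold tt xx
      simp
    rw [← h3, h5, tt_of_inSemi (by omega) (by omega) huv hcon ?_] at h4
    · rw [h3] at h4
      have : (2 : ℤ) ≤ a := by exact_mod_cast ha
      have : (2 : ℤ) ≤ b := by exact_mod_cast hb
      nlinarith
    · rw [h3]
      have : (2 : ℤ) ≤ a := by exact_mod_cast ha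
      have : (2 : ℤ) ≤ b := by exact_mod_cast hb
      linarith

section Main

variable {a b : ℕ} {u v : ℤ} {g : ℤ} {F p q : ℤ → ℚ} {V : ℕ → ℕ}

/-- The difference between the steps of the torus knot and those of the knot. -/
def sig (a b : ℕ) (u v g : ℤ) (F : ℤ → ℚ) (i : ℤ) : ℚ :=
  ((2 * (a * b) - a - b - 2 * (tt a b u v (g + i) : ℚ)) / (a * b) - (F i - F (i + 1))) / 2

theorem tt_shift (n k l : ℤ) :
    tt a b u v n + tt a b u v (n + a * k + b * l)
      = tt a b u v (n + a * k) + tt a b u v (n + b * l) := by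
  unfold tt
  have h1 := xx_add (b := a) (u := v) n k
  have h2 := xx_add (b := b) (u := u) n l
  have h3 := xx_add (b := b) (u := u) (n + a * k) l
  have h4 := xx_add (b := a) (u := v) (n + b * l) k
  rw [show n + b * l + a * k = n + a * k + b * l by ring] at h4
  rw [h1, h2, h3, h4]
  ring

theorem per_mul {f : ℤ → ℚ} {c : ℤ} (h : ∀ i, f (i + c) = f i) (i k : ℤ) :
    f (i + c * k) = f i := by
  have h1 : Function.Periodic f c := h
  have h2 := h1.int_mul k i
  rwa [mul_comm] at h2

theorem F_four (hF : ∀ i, F i = p i + q i) (hp : ∀ i, p (i + a) = p i)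
    (hq : ∀ i, q (i + b) = q i) (n k l : ℤ) :
    F n + F (n + a * k + b * l) = F (n + a * k) + F (n + b * l) := by
  rw [hF, hF, hF, hF, per_mul hq (n + a * k) l, per_mul hp n k, per_mul hq n l]
  have := per_mul hp (n + b * l) k
  rw [show n + b * l + a * k = n + a * k + b * l by ring] at this
  rw [this]
  ring

theorem sig_four (hF : ∀ i, F i = p i + q i) (hp : ∀ i, p (i + a) = p i)
    (hq : ∀ i, q (i + b) = q i) (n k l : ℤ) :
    sig a b u v g F n + sig a b u v g F (n + a * k + b * l)
      = sig a b u v g F (n + a * k) + sig a b u v g F (n + b * l) := by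
  have h1 := F_four hF hp hq n k l
  have h2 := F_four hF hp hq (n + 1) k l
  have h3 := tt_shift (a := a) (b := b) (u := u) (v := v) (g + n) k l
  have h4 : (tt a b u v (g + n) : ℚ) + (tt a b u v (g + n + a * k + b * l) : ℚ)
      = (tt a b u v (g + n + a * k) : ℚ) + (tt a b u v (g + n + b * l) : ℚ) := by
    exact_mod_cast h3
  rw [show n + 1 + (a : ℤ) * k + b * l = n + a * k + b * l + 1 by ring,
    show n + 1 + (a : ℤ) * k = n + a * k + 1 by ring,
    show n + 1 + (b : ℤ) * l = n + b * l + 1 by ring] at h2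
  rw [show g + n + (a : ℤ) * k + b * l = g + (n + a * k + b * l) by ring,
    show g + n + (a : ℤ) * k = g + (n + a * k) by ring,
    show g + n + (b : ℤ) * l = g + (n + b * l) by ring] at h4
  unfold sig
  linear_combination (-1 / (a * b : ℚ)) * h4 - (1 / 2 : ℚ) * h1 + (1 / 2 : ℚ) * h2

theorem F_per (hF : ∀ i, F i = p i + q i) (hp : ∀ i, p (i + a) = p i)
    (hq : ∀ i, q (i + b) = q i) (n k : ℤ) : F (n + a * b * k) = F n := by
  rw [hF, hF]
  have h1 := per_mul hp n (b * k)
  have h2 := per_mul hq n (a * k)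
  rw [show n + (a : ℤ) * (b * k) = n + a * b * k by ring] at h1
  rw [show n + (b : ℤ) * (a * k) = n + a * b * k by ring] at h2
  rw [h1, h2]

theorem sig_per (hF : ∀ i, F i = p i + q i) (hp : ∀ i, p (i + a) = p i)
    (hq : ∀ i, q (i + b) = q i) (n k : ℤ) :
    sig a b u v g F (n + a * b * k) = sig a b u v g F n := by
  have h1 := F_per hF hp hq n k
  have h2 := F_per hF hp hq (n + 1) k
  have h3 : tt a b u v (g + (n + a * b * k)) = tt a b u v (g + n) := by
    unfold tt
    have h4 := xx_add (b := b) (u := u) (g + n) (a * k)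
    have h5 := xx_add (b := a) (u := v) (g + n) (b * k)
    rw [show g + n + (b : ℤ) * (a * k) = g + (n + a * b * k) by ring] at h4
    rw [show g + n + (a : ℤ) * (b * k) = g + (n + a * b * k) by ring] at h5
    rw [h4, h5]
  unfold sig
  rw [h1, h3, show n + (a : ℤ) * b * k + 1 = n + 1 + a * b * k by ring, h2]

/-- `F` is even. -/
theorem F_even (ha : 0 < a) (hb : 0 < b) (hF : ∀ i, F i = p i + q i)
    (hp : ∀ i, p (i + a) = p i) (hq : ∀ i, q (i + b) = q i)
    (hv : ∀ i : ℕ, i ≤ a * b → F i = ((2 * i - a * b) ^ 2 - a * b) / (4 * (a * b))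
      - 2 * V (min i (a * b - i))) (n : ℤ) : F (-n) = F n := by
  have hab : (0 : ℤ) < (a * b : ℕ) := by exact_mod_cast Nat.mul_pos ha hb
  have h1 := Int.emod_nonneg n hab.ne'
  have h2 := Int.emod_lt_of_pos n hab
  have h3 := Int.emod_add_mul_ediv n (a * b : ℕ)
  obtain ⟨j, hj⟩ := Int.eq_ofNat_of_zero_le h1
  rw [hj] at h2 h3
  have hj' : j ≤ a * b := by omega
  have h4 : F n = F j := by
    rw [← h3]
    have := F_per hF hp hq j (n / (a * b : ℕ))
    push_cast at this ⊢
    exact this
  have h5 : F (-n) = F ((a * b - j : ℕ) : ℤ) := by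
    have := F_per hF hp hq ((a * b - j : ℕ) : ℤ) (-1 - n / (a * b : ℕ))
    rw [← this]
    congr 1
    rw [Nat.cast_sub hj']
    push_cast at h3 ⊢
    linarith
  rw [h4, h5, hv j hj', hv (a * b - j) (by omega)]
  rw [show min (a * b - j) (a * b - (a * b - j)) = min j (a * b - j) by omega]
  rw [Nat.cast_sub hj']
  push_cast
  ring

theorem sig_odd (ha : 0 < a) (hb : 0 < b) (huv : a * u + b * v = 1)
    (hg : 2 * g = a * b - a - b + 1) (he : ∀ n, F (-n) = F n) (n : ℤ) :
    sig a b u v g F (-1 - n) = - sig a b u v g F n := by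
  have h1 := tt_rev ha hb huv (g + n)
  rw [show (a : ℤ) * b - a - b - (g + n) = g + (-1 - n) by linarith] at h1
  have h2 : (tt a b u v (g + (-1 - n)) : ℚ) = 2 * (a * b) - a - b - (tt a b u v (g + n) : ℚ) := by
    exact_mod_cast h1
  have h3 := he n
  have h4 := he (n + 1)
  have hab : (a * b : ℚ) ≠ 0 := by positivity
  unfold sig
  rw [h2, show -1 - n + 1 = -n by ring, h3, show -1 - n = -(n + 1) by ring, h4]
  ring

/-- In the window the difference of the steps is an integer. -/
theorem sig_window (ha : 0 < a) (hb : 0 < b) (huv : a * u + b * v = 1) (hg0 : 0 ≤ g)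
    (hg : 2 * g = a * b - a - b + 1)
    (hv : ∀ i : ℕ, i ≤ a * b → F i = ((2 * i - a * b) ^ 2 - a * b) / (4 * (a * b))
      - 2 * V (min i (a * b - i))) (i : ℕ) (hi : 2 * (i + 1) ≤ a * b) :
    sig a b u v g F i = V i - V (i + 1) - gap a b (g + i) := by
  have h1 := hv i (by omega)
  have h2 := hv (i + 1) (by omega)
  rw [show min i (a * b - i) = i by omega] at h1
  rw [show min (i + 1) (a * b - (i + 1)) = i + 1 by omega] at h2
  have hab : (a * b : ℚ) ≠ 0 := by positivity
  have hlt : g + i < a * b := by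
    have h3 : (2 : ℤ) * (i + 1) ≤ a * b := by exact_mod_cast hi
    have h4 : (0 : ℤ) < a := by exact_mod_cast ha
    have h5 : (0 : ℤ) < b := by exact_mod_cast hb
    linarith
  have hgq : (2 * g : ℚ) = a * b - a - b + 1 := by exact_mod_cast hg
  have h3 : (tt a b u v (g + i) : ℚ) = g + i + a * b * gap a b (g + i) := by
    rcases tt_eq ha hb huv (n := g + i) (by positivity) hlt with ⟨h3, h4⟩ | ⟨h3, h4⟩
    · rw [h4]
      unfold gap
      rw [if_pos h3]
      push_cast
      ring
    · rw [h4]
      unfold gap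
      rw [if_neg h3]
      push_cast
      ring
  unfold sig
  push_cast at h2
  rw [h3, h1, h2]
  field_simp
  linear_combination (-4 : ℚ) * hgq

/-- In the first column the differences are `0` or `1`. -/
theorem sig_column (ha : 2 ≤ a) (hlt : a < b) (huv : a * u + b * v = 1) (hg0 : 0 ≤ g)
    (hg : 2 * g = a * b - a - b + 1) (hV1 : ∀ s, V (s + 1) ≤ V s)
    (hV2 : ∀ s, V s ≤ V (s + 1) + 1) (he : ∀ n, F (-n) = F n)
    (hv : ∀ i : ℕ, i ≤ a * b → F i = ((2 * i - a * b) ^ 2 - a * b) / (4 * (a * b))
      - 2 * V (min i (a * b - i))) (y : ℕ) (hy : y < a) :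
    ∃ s : ℤ, (s = 0 ∨ s = 1) ∧ sig a b u v g F (b * y - g) = s := by
  have hyb : (b : ℤ) * y ≤ b * (a - 1) := by
    apply mul_le_mul_of_nonneg_left (by omega) (by positivity)
  have ha' : (2 : ℤ) ≤ a := by exact_mod_cast ha
  have hlt' : (a : ℤ) < b := by exact_mod_cast hlt
  have hin : InSemi a b (b * y) := ⟨0, y, by simp⟩
  rcases le_total 0 ((b : ℤ) * y - g) with h | h
  · obtain ⟨i, hi⟩ := Int.eq_ofNat_of_zero_le h
    have h1 : 2 * (i + 1) ≤ a * b := by
      zify
      linarith
    rw [hi, sig_window (by omega) (by omega) huv hg0 hg hv i h1]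
    have h2 : g + (i : ℤ) = b * y := by rw [← hi]; ring
    rw [h2]
    have h3 : gap a b (b * y) = 0 := by
      unfold gap
      rw [if_pos hin]
    rw [h3]
    refine ⟨V i - V (i + 1), ?_, by push_cast; ring⟩
    have := hV1 i
    have := hV2 i
    omega
  · rcases h.lt_or_eq with h' | h'
    · obtain ⟨i, hi⟩ := Int.eq_ofNat_of_zero_le (show 0 ≤ -1 - ((b : ℤ) * y - g) by omega)
      have hy0 : (0 : ℤ) ≤ b * y := by positivity
      have h1 : 2 * (i + 1) ≤ a * b := by
        zify
        linarith
      have h2 := sig_odd (F := F) (by omega) (by omega) huv hg he (b * y - g)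
      rw [hi, sig_window (by omega) (by omega) huv hg0 hg hv i h1] at h2
      have h3 : g + (i : ℤ) = a * b - a - b - b * y := by rw [← hi]; linarith
      have h4 : gap a b (g + i) = 1 := by
        unfold gap
        rw [if_neg]
        intro hcon
        have h5 := tt_rev (by omega) (by omega) huv ((b : ℤ) * y)
        rw [← h3, tt_of_inSemi (by omega) (by omega) huv hcon (by linarith),
          tt_of_inSemi (by omega) (by omega) huv hin (by linarith)] at h5
        have : (0 : ℤ) < a * b := by
          have : (0 : ℤ) < b := by linarith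
          positivity
        linarith
      rw [h4] at h2
      refine ⟨1 - (V i - V (i + 1)), ?_, by push_cast at h2 ⊢; linarith⟩
      have := hV1 i
      have := hV2 i
      omega
    · -- the value `0` of the index is in the window
      have h1 : 2 * (0 + 1) ≤ a * b := by nlinarith
      have h2 := sig_window (F := F) (by omega) (by omega) huv hg0 hg hv 0 h1
      rw [h', show ((0 : ℤ)) = ((0 : ℕ) : ℤ) by rfl, h2]
      have h3 : g + ((0 : ℕ) : ℤ) = b * y := by push_cast; linarith
      rw [h3]
      have h4 : gap a b (b * y) = 0 := by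
        unfold gap
        rw [if_pos hin]
      rw [h4]
      refine ⟨V 0 - V (0 + 1), ?_, by push_cast; ring⟩
      have := hV1 0
      have := hV2 0
      omega

/-- The differences in the first column are constant. -/
theorem sig_const (ha : 2 ≤ a) (hlt : a < b) (hcop : a.Coprime b) (huv : a * u + b * v = 1)
    (hg0 : 0 ≤ g) (hg : 2 * g = a * b - a - b + 1) (hF : ∀ i, F i = p i + q i)
    (hp : ∀ i, p (i + a) = p i) (hq : ∀ i, q (i + b) = q i) (hV1 : ∀ s, V (s + 1) ≤ V s)
    (hV2 : ∀ s, V s ≤ V (s + 1) + 1)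
    (hv : ∀ i : ℕ, i ≤ a * b → F i = ((2 * i - a * b) ^ 2 - a * b) / (4 * (a * b))
      - 2 * V (min i (a * b - i))) (n : ℤ) :
    sig a b u v g F (n + b) = sig a b u v g F n := by
  have he := F_even (by omega) (by omega) hF hp hq hv
  have hodd := sig_odd (F := F) (by omega) (by omega) huv hg he
  have hfour := sig_four (u := u) (v := v) (g := g) hF hp hq
  have hper := sig_per (u := u) (v := v) (g := g) hF hp hq
  -- the values in the first column
  have hcol : ∀ y : ℤ, ∃ s : ℤ, (s = 0 ∨ s = 1) ∧ sig a b u v g F (b * y - g) = s := by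
    intro y
    have ha0 : (0 : ℤ) < a := by omega
    have h1 := Int.emod_nonneg y ha0.ne'
    have h2 := Int.emod_lt_of_pos y ha0
    have h3 := Int.emod_add_mul_ediv y a
    obtain ⟨j, hj⟩ := Int.eq_ofNat_of_zero_le h1
    rw [hj] at h2 h3
    obtain ⟨s, hs, hs'⟩ := sig_column ha hlt huv hg0 hg hV1 hV2 he hv j (by exact_mod_cast h2)
    refine ⟨s, hs, ?_⟩
    rw [← hs', ← hper (b * j - g) (y / a)]
    congr 1
    linear_combination (-(b : ℤ)) * h3
  choose s hs hs' using hcol
  -- the reversal of the first column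
  have hrev : ∀ y : ℤ, sig a b u v g F (b * y - g - a) = - (s (-1 - y) : ℚ) := by
    intro y
    rw [← hs' (-1 - y), ← hodd]
    rw [← hper (-1 - (b * (-1 - y) - g)) (-1)]
    congr 1
    linarith
  have hsum : ∀ y : ℤ, s y + s (-1 - y) = s 0 + s (-1) := by
    intro y
    have h1 := hfour (b * 0 - g) (-1) y
    rw [show (b : ℤ) * 0 - g + a * (-1) + b * y = b * y - g - a by ring,
      show (b : ℤ) * 0 - g + a * (-1) = b * 0 - g - a by ring,
      show (b : ℤ) * 0 - g + b * y = b * y - g by ring, hrev, hrev, hs', hs'] at h1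
    have h2 : ((s y : ℚ) + s (-1 - y)) = s 0 + s (-1 - 0) := by linarith
    have h3 : s y + s (-1 - y) = s 0 + s (-1 - 0) := by exact_mod_cast h2
    simpa using h3
  -- the parity
  have hpar : s 0 + s (-1) = 0 ∨ s 0 + s (-1) = 2 := by
    have h0 := hs 0
    have h1 := hs (-1)
    by_contra hcon
    have hone : s 0 + s (-1) = 1 := by omega
    rcases Nat.even_or_odd b with hb | hb
    · -- then `a` is odd
      have haodd : Odd a := by
        rcases Nat.even_or_odd a with h3 | h3
        · exfalso
          have := Nat.dvd_gcd h3.two_dvd hb.two_dvd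
          rw [hcop] at this
          omega
        · exact h3
      obtain ⟨k, hk⟩ := haodd
      have h2 := hsum k
      rw [hone] at h2
      have h3 : sig a b u v g F (b * (-1 - (k : ℤ)) - g) = sig a b u v g F (b * k - g) := by
        rw [← hper (b * (-1 - k) - g) 1]
        congr 1
        rw [hk]
        push_cast
        ring
      rw [hs', hs'] at h3
      have h4 : s (-1 - k) = s k := by exact_mod_cast h3
      omega
    · obtain ⟨k, hk⟩ := hb
      -- the middle column
      have hk' : (b : ℤ) = 2 * k + 1 := by exact_mod_cast hk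
      have hmid : ∀ y : ℤ, sig a b u v g F (b * y - g + a * k)
          = - sig a b u v g F (b * (-1 - y) - g + a * k) := by
        intro y
        rw [← hodd]
        congr 1
        have : 2 * g = a * b - a - b + 1 := hg
        have h5 : (a : ℤ) * b = 2 * (a * k) + a := by rw [hk']; ring
        linarith
      have h2 := hfour (b * 0 - g) k (-1)
      rw [show (b : ℤ) * 0 - g + a * k + b * (-1) = b * (-1) - g + a * k by ring,
        show (b : ℤ) * 0 - g + b * (-1) = b * (-1) - g by ring, hs', hs'] at h2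
      have h3 := hmid 0
      rw [show (-1 : ℤ) - 0 = -1 by ring] at h3
      have h4 : (b : ℤ) * 0 - g + a * k = (k : ℕ) := by
        have h5 : (a : ℤ) * b = 2 * (a * k) + a := by rw [hk']; ring
        linarith
      have h6 := sig_window (F := F) (by omega) (by omega) huv hg0 hg hv k (by
        have : 2 * b ≤ a * b := Nat.mul_le_mul_right b ha
        omega)
      rw [← h4] at h6
      rw [h3] at h2 h6
      have h7 : ((s 0 - s (-1) : ℤ) : ℚ)
          = ((2 * (V k - V (k + 1) - gap a b (g + (b * 0 - g + a * k))) : ℤ) : ℚ) := by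
        push_cast
        linarith
      have h8 : s 0 - s (-1) = 2 * (V k - V (k + 1) - gap a b (g + (b * 0 - g + a * k))) := by
        exact_mod_cast h7
      omega
  have hconst : ∀ y : ℤ, s y = s 0 := by
    intro y
    have h1 := hsum y
    have h2 := hs y
    have h3 := hs (-1 - y)
    have h4 := hs 0
    have h5 := hs (-1)
    omega
  -- all columns
  have h1 := hfour (b * (v * (n + g)) - g) (u * (n + g)) 1
  have h2 : (b : ℤ) * (v * (n + g)) - g + a * (u * (n + g)) = n := by
    linear_combination (n + g) * huv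
  rw [h2, show (b : ℤ) * (v * (n + g)) - g + b * 1 = b * (v * (n + g) + 1) - g by ring, hs', hs',
    hconst, hconst (v * (n + g) + 1), mul_one] at h1
  linarith

/-- The sum of the differences over an interval which is invariant under a reflection. -/
theorem sum_reflect {σ : ℤ → ℚ} {c : ℕ} (hper : ∀ n, σ (n + c) = σ n)
    (hodd : ∀ n, σ (-1 - n) = - σ n) (i j k : ℕ) (hij : i ≤ j) (hk : i + j = c * k) :
    ∑ n ∈ Ico i j, σ n = 0 := by
  have h1 : ∑ n ∈ Ico i j, σ n = ∑ n ∈ Ico i j, σ ((i + j - 1 - n : ℕ) : ℤ) := by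
    refine Finset.sum_nbij' (fun n => i + j - 1 - n) (fun n => i + j - 1 - n) ?_ ?_ ?_ ?_ ?_
    · intro n hn
      rw [mem_Ico] at hn ⊢
      omega
    · intro n hn
      rw [mem_Ico] at hn ⊢
      omega
    · intro n hn
      rw [mem_Ico] at hn
      omega
    · intro n hn
      rw [mem_Ico] at hn
      omega
    · intro n hn
      rw [mem_Ico] at hn
      congr 2
      omega
  have h2 : ∑ n ∈ Ico i j, σ ((i + j - 1 - n : ℕ) : ℤ) = ∑ n ∈ Ico i j, - σ n := by
    refine Finset.sum_congr rfl fun n hn => ?_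
    rw [mem_Ico] at hn
    rw [← hodd, ← per_mul hper (-1 - n) k]
    congr 1
    have : (i : ℤ) + j = c * k := by exact_mod_cast hk
    omega
  rw [h2, sum_neg_distrib] at h1
  linarith

/-- The theorem if `a < b`. -/
theorem torusV_le_of_lt (ha : 2 ≤ a) (hlt : a < b) (hcop : a.Coprime b) (hF : ∀ i, F i = p i + q i)
    (hp : ∀ i, p (i + a) = p i) (hq : ∀ i, q (i + b) = q i) (hV1 : ∀ s, V (s + 1) ≤ V s)
    (hV2 : ∀ s, V s ≤ V (s + 1) + 1)
    (hv : ∀ i : ℕ, i < a * b → F i = ((2 * i - a * b) ^ 2 - a * b) / (4 * (a * b))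
      - 2 * V (min i (a * b - i))) (i : ℕ) (hi : 2 * i ≤ a * b) : torusV a b i ≤ V i := by
  obtain ⟨u, v, huv⟩ : ∃ u v : ℤ, (a : ℤ) * u + b * v = 1 := by
    have := Nat.isCoprime_iff_coprime.mpr hcop
    obtain ⟨u, v, huv⟩ := this
    exact ⟨u, v, by linarith⟩
  have hv' : ∀ i : ℕ, i ≤ a * b → F i = ((2 * i - a * b) ^ 2 - a * b) / (4 * (a * b))
      - 2 * V (min i (a * b - i)) := by
    intro i hi
    rcases hi.lt_or_eq with h | h
    · exact hv i h
    · have h1 := hv 0 (Nat.mul_pos (by omega) (by omega))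
      have h2 := F_per hF hp hq 0 1
      rw [h, show (((a * b : ℕ)) : ℤ) = 0 + a * b * 1 by push_cast; ring, h2,
        show (0 : ℤ) = ((0 : ℕ) : ℤ) by rfl, h1]
      simp
      ring
  set g : ℕ := (a - 1) * (b - 1) / 2 with hgdef
  have hg : 2 * (g : ℤ) = a * b - a - b + 1 := two_genus ha (by omega) hcop
  have he := F_even (by omega) (by omega) hF hp hq hv'
  have hodd := sig_odd (F := F) (by omega) (by omega) huv hg he
  have hconst := sig_const ha hlt hcop huv (by positivity) hg hF hp hq hV1 hV2 hv'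
  have hstep : ∀ j : ℕ, 2 * (j + 1) ≤ a * b →
      sig a b u v g F j = ((V j : ℚ) - torusV a b j) - (V (j + 1) - torusV a b (j + 1)) := by
    intro j hj
    rw [sig_window (by omega) (by omega) huv (by positivity) hg hv' j hj]
    have h1 := torusV_step ha (by omega) hcop j hj
    have h2 : ((torusV a b j : ℚ) - torusV a b (j + 1))
        = (gap a b (((a - 1) * (b - 1) / 2 : ℕ) + j) : ℚ) := by
      rw [← h1]
      push_cast
      ring
    rw [← hgdef] at h2
    linarith
  have hsum : ∀ j k : ℕ, j ≤ k → 2 * k ≤ a * b →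
      ∑ n ∈ Ico j k, sig a b u v g F n
        = ((V j : ℚ) - torusV a b j) - (V k - torusV a b k) := by
    intro j k hjk hk
    induction k, hjk using Nat.le_induction with
    | base => simp
    | succ k hjk ih =>
      rw [sum_Ico_succ_top hjk, ih (by omega), hstep k hk]
      ring
  -- two indices which are equal up to sign modulo `b`
  have hrefl : ∀ j k l : ℕ, j ≤ k → 2 * k ≤ a * b → j + k = b * l →
      (V j : ℚ) - torusV a b j = V k - torusV a b k := by
    intro j k l hjk hk hl
    have h1 := hsum j k hjk hk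
    rw [sum_reflect hconst hodd j k l hjk hl] at h1
    linarith
  have htrans : ∀ j l : ℕ, 2 * (j + b * l) ≤ a * b →
      (V j : ℚ) - torusV a b j = V (j + b * l : ℕ) - torusV a b (j + b * l) := by
    intro j l hl
    have h1 := hsum j (j + b * l) (by omega) hl
    have h2 : ∑ n ∈ Ico j (j + b * l), sig a b u v g F n = 0 := by
      have h3 : j + b * l ≤ b * (2 * j + l) - j := by
        have : j ≤ b * j := Nat.le_mul_of_pos_left j (by omega)
        have : b * (2 * j + l) = 2 * (b * j) + b * l := by ring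
        omega
      have h4 : j ≤ b * (2 * j + l) := by
        have : j ≤ b * j := Nat.le_mul_of_pos_left j (by omega)
        have : b * (2 * j + l) = 2 * (b * j) + b * l := by ring
        omega
      have h5 := sum_reflect hconst hodd j (b * (2 * j + l) - j) (2 * j + l) (by omega) (by omega)
      have h6 := sum_reflect hconst hodd (j + b * l) (b * (2 * j + l) - j) (2 * j + 2 * l) h3 (by
        have : b * (2 * j + l) = 2 * (b * j) + b * l := by ring
        have : b * (2 * j + 2 * l) = 2 * (b * j) + 2 * (b * l) := by ring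
        omega)
      rw [← sum_Ico_consecutive _ (show j ≤ j + b * l by omega) h3, h6, add_zero] at h5
      exact h5
    rw [h2] at h1
    linarith
  have hfin : ∀ k : ℕ, 2 * k ≤ a * b → g ≤ k → (0 : ℚ) ≤ V k - torusV a b k := by
    intro k _ hk
    rw [torusV_eq_zero ha (by omega) hcop k hk]
    simp
  have hgab : 2 * g + a + b = a * b + 1 := by
    zify
    linarith
  -- the largest index in the class which is at most `a b / 2`
  have hmain : (0 : ℚ) ≤ V i - torusV a b i := by
    set l := (a * b - 2 * i) / (2 * b) with hl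
    have h1 : (a * b - 2 * i) % (2 * b) < 2 * b := Nat.mod_lt _ (by omega)
    have h2 := Nat.mod_add_div (a * b - 2 * i) (2 * b)
    rw [← hl] at h2
    have h3 : 2 * b * l = 2 * (b * l) := by ring
    rw [h3] at h2
    have h4 : 2 * (i + b * l) ≤ a * b := by omega
    have h5 : a * b < 2 * (i + b * l) + 2 * b := by omega
    rw [htrans i l h4]
    by_cases h6 : a * b ≤ 2 * (i + b * l) + b
    · exact hfin _ h4 (by omega)
    · have h7 : b * (a - 1) = a * b - b := by
        rw [Nat.mul_sub, mul_one, mul_comm]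
      rw [hrefl (i + b * l) (a * b - b - (i + b * l)) (a - 1) (by omega) (by omega) (by omega)]
      exact hfin _ (by omega) (by omega)
  have : (torusV a b i : ℚ) ≤ V i := by linarith
  exact_mod_cast this

end Main

theorem torusV_comm (a b i : ℕ) : torusV a b i = torusV b a i := by
  classical
  unfold torusV
  rw [mul_comm a b, mul_comm (a - 1) (b - 1)]
  congr 1
  refine filter_congr fun n _ => ?_
  have : InSemi a b n ↔ InSemi b a n :=
    ⟨fun ⟨x, y, h⟩ => ⟨y, x, by linarith⟩, fun ⟨x, y, h⟩ => ⟨y, x, by linarith⟩⟩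
  rw [this]

/-- **The torus knot is minimal.** Let `a, b ≥ 2` be coprime. If the numbers
`d(i) = ((2 i - a b)² - a b) / (4 a b) - 2 V (min (i, a b - i))`, the `d`-invariants of the
`a b`-surgery, are sums of a function of `i` modulo `a` and a function of `i` modulo `b`, then
`V i` is at least the invariant `V i` of the torus knot `T(a, b)` for `0 ≤ i ≤ a b / 2`. -/
theorem torusV_le {a b : ℕ} (ha : 2 ≤ a) (hb : 2 ≤ b) (hcop : a.Coprime b) (V : ℕ → ℕ)
    (hV1 : ∀ s, V (s + 1) ≤ V s) (hV2 : ∀ s, V s ≤ V (s + 1) + 1) (p q : ℤ → ℚ)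
    (hp : ∀ i, p (i + a) = p i) (hq : ∀ i, q (i + b) = q i)
    (hv : ∀ i : ℕ, i < a * b → p i + q i = ((2 * i - a * b) ^ 2 - a * b) / (4 * (a * b))
      - 2 * V (min i (a * b - i))) (i : ℕ) (hi : 2 * i ≤ a * b) : torusV a b i ≤ V i := by
  rcases lt_trichotomy a b with h | h | h
  · exact torusV_le_of_lt (F := fun i => p i + q i) ha h hcop (fun _ => rfl) hp hq hV1 hV2 hv i hi
  · subst h
    rw [Nat.coprime_self] at hcop
    omega
  · rw [torusV_comm]
    refine torusV_le_of_lt (F := fun i => q i + p i) hb h hcop.symm (fun _ => rfl) hq hp hV1 hV2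
      ?_ i (by rwa [mul_comm b a])
    intro j hj
    rw [mul_comm] at hj
    rw [add_comm, hv j hj, mul_comm b a]
    ring


end Pool.Agent.Helper23.FT
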