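import Mathlib

/-!
# The semigroup generated by two coprime numbers on the grid of residues

`tt` is the representative `a x + b y` with `0 ≤ x < b` and `0 ≤ y < a` of a residue modulo `a b`.
-/

set_option autoImplicit false

namespace Pool.Agent.Helper23.FT

/-- The integer `n` is a non-negative combination of `a` and `b`. -/
def InSemi (a b : ℕ) (n : ℤ) : Prop := ∃ x y : ℕ, n = a * x + b * y

/-- The coordinate `x` of the residue of `n`. -/
def xx (b : ℕ) (u n : ℤ) : ℤ := (n * u) % b

/-- The representative `a x + b y` of the residue of `n`, where `a u + b v = 1`. -/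
def tt (a b : ℕ) (u v n : ℤ) : ℤ := a * xx b u n + b * xx a v n

section

variable {a b : ℕ} {u v : ℤ}

theorem xx_nonneg (hb : 0 < b) (n : ℤ) : 0 ≤ xx b u n :=
  Int.emod_nonneg _ (by omega)

theorem xx_lt (hb : 0 < b) (n : ℤ) : xx b u n < b :=
  Int.emod_lt_of_pos _ (by omega)

theorem xx_add (n k : ℤ) : xx b u (n + b * k) = xx b u n := by
  unfold xx
  rw [show (n + b * k) * u = n * u + b * (k * u) by ring, Int.add_mul_emod_self_left]

/-- The representative differs from `n` by a multiple of `a b`. -/
theorem exists_tt (h : a * u + b * v = 1) (n : ℤ) :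
    ∃ q : ℤ, tt a b u v n = n + a * b * q := by
  refine ⟨-((n * u) / b) - (n * v) / a, ?_⟩
  have h1 := Int.emod_add_mul_ediv (n * u) b
  have h2 := Int.emod_add_mul_ediv (n * v) a
  unfold tt xx
  linear_combination a * h1 + b * h2 + n * h

theorem emod_unique {c x y : ℤ} (hx : 0 ≤ x) (hx' : x < c) (q : ℤ) (h : y = x + c * q) :
    y % c = x := by
  rw [h, Int.add_mul_emod_self_left]
  exact Int.emod_eq_of_lt hx hx'

/-- The representative of a non-negative combination which is less than `a b`. -/
theorem tt_of_inSemi (ha : 0 < a) (hb : 0 < b) (h : a * u + b * v = 1) {n : ℤ}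
    (hn : InSemi a b n) (hlt : n < a * b) : tt a b u v n = n := by
  obtain ⟨x, y, hxy⟩ := hn
  have hx : (x : ℤ) < b := by
    by_contra hcon
    push Not at hcon
    have : (a : ℤ) * b ≤ a * x := by
      have : (0 : ℤ) ≤ a := by positivity
      nlinarith
    have : (0 : ℤ) ≤ b * y := by positivity
    linarith
  have hy : (y : ℤ) < a := by
    by_contra hcon
    push Not at hcon
    have : (a : ℤ) * b ≤ b * y := by
      have : (0 : ℤ) ≤ b := by positivity
      nlinarith
    have : (0 : ℤ) ≤ a * x := by positivity
    linarith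
  have h1 : xx b u n = x := by
    refine emod_unique (by positivity) hx (y * u - x * v) ?_
    rw [hxy]
    linear_combination x * h
  have h2 : xx a v n = y := by
    refine emod_unique (by positivity) hy (x * v - y * u) ?_
    rw [hxy]
    linear_combination y * h
  unfold tt
  rw [h1, h2, hxy]

theorem inSemi_tt (ha : 0 < a) (hb : 0 < b) (n : ℤ) : InSemi a b (tt a b u v n) := by
  refine ⟨(xx b u n).toNat, (xx a v n).toNat, ?_⟩
  rw [Int.toNat_of_nonneg (xx_nonneg hb n), Int.toNat_of_nonneg (xx_nonneg ha n)]
  rfl

theorem tt_nonneg (ha : 0 < a) (hb : 0 < b) (n : ℤ) : 0 ≤ tt a b u v n := by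
  have h1 := xx_nonneg (u := u) hb n
  have h2 := xx_nonneg (u := v) ha n
  unfold tt
  positivity

theorem tt_le (ha : 0 < a) (hb : 0 < b) (n : ℤ) : tt a b u v n ≤ 2 * (a * b) - a - b := by
  have h1 := xx_lt (u := u) hb n
  have h2 := xx_lt (u := v) ha n
  have h3 : (a : ℤ) * xx b u n ≤ a * (b - 1) := by
    apply mul_le_mul_of_nonneg_left (by omega) (by positivity)
  have h4 : (b : ℤ) * xx a v n ≤ b * (a - 1) := by
    apply mul_le_mul_of_nonneg_left (by omega) (by positivity)
  unfold tt
  linarith

/-- In the interval `0 ≤ n < a b` the representative is `n` or `n + a b`, according to whether `n`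
is a non-negative combination. -/
theorem tt_eq (ha : 0 < a) (hb : 0 < b) (h : a * u + b * v = 1) {n : ℤ} (h0 : 0 ≤ n)
    (hlt : n < a * b) :
    (InSemi a b n ∧ tt a b u v n = n) ∨ (¬ InSemi a b n ∧ tt a b u v n = n + a * b) := by
  by_cases hn : InSemi a b n
  · exact Or.inl ⟨hn, tt_of_inSemi ha hb h hn hlt⟩
  · refine Or.inr ⟨hn, ?_⟩
    obtain ⟨q, hq⟩ := exists_tt h n
    have h1 := tt_nonneg (u := u) (v := v) ha hb n
    have h2 := tt_le (u := u) (v := v) ha hb n
    have hab : (0 : ℤ) < a * b := by positivity
    have hq0 : q ≠ 0 := by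
      rintro rfl
      apply hn
      have := inSemi_tt (u := u) (v := v) ha hb n
      rwa [hq, mul_zero, add_zero] at this
    have hq1 : -1 < q := by
      by_contra hcon
      have : (a : ℤ) * b * q ≤ a * b * (-1) := by
        apply mul_le_mul_of_nonneg_left (by omega) hab.le
      linarith
    have hq2 : q < 2 := by
      by_contra hcon
      have : (a : ℤ) * b * 2 ≤ a * b * q := by
        apply mul_le_mul_of_nonneg_left (by omega) hab.le
      have h3 : (0 : ℤ) < a := by positivity
      have h4 : (0 : ℤ) < b := by positivity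
      linarith
    have : q = 1 := by omega
    rw [hq, this, mul_one]

/-- The reversal. -/
theorem xx_rev (hb : 0 < b) (h : a * u + b * v = 1) (n : ℤ) :
    xx b u (a * b - a - b - n) = b - 1 - xx b u n := by
  have h1 := xx_nonneg (u := u) hb n
  have h2 := xx_lt (u := u) hb n
  have h3 := Int.emod_add_mul_ediv (n * u) b
  refine emod_unique (by omega) (by omega) (a * u - u + v - 1 - (n * u) / b) ?_
  unfold xx
  linear_combination (-1 : ℤ) * h + h3

theorem tt_rev (ha : 0 < a) (hb : 0 < b) (h : a * u + b * v = 1) (n : ℤ) :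
    tt a b u v (a * b - a - b - n) = 2 * (a * b) - a - b - tt a b u v n := by
  have h1 := xx_rev hb h n
  have h2 := xx_rev (a := b) (b := a) (u := v) (v := u) ha (by linarith) n
  unfold tt
  rw [h1, show (a : ℤ) * b - a - b - n = b * a - b - a - n by ring, h2]
  ring

end

end Pool.Agent.Helper23.FT
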