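import Pool.Agent.Helper23.FT.Dominance

/-!
# The torus knots satisfy the hypotheses

The `d`-invariants of the `a b`-surgery on the torus knot `T(a, b)` are sums of a function of `i`
modulo `a` and a function of `i` modulo `b`.
-/

set_option autoImplicit false

namespace Pool.Agent.Helper23.FT

open Finset

/-- The step of the part which is periodic modulo `b`. -/
def stepq (b : ℕ) (u g i : ℤ) : ℚ := 1 - (2 * (xx b u (g + i) : ℚ) + 1) / b

theorem stepq_per (b : ℕ) (u g i k : ℤ) : stepq b u g (i + b * k) = stepq b u g i := by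
  unfold stepq
  rw [← add_assoc, xx_add]

theorem stepq_odd {a b : ℕ} {u v g : ℤ} (hb : 0 < b) (h : a * u + b * v = 1)
    (hg : 2 * g = a * b - a - b + 1) (i : ℤ) : stepq b u g (-1 - i) = - stepq b u g i := by
  have h1 := xx_rev hb h (g + i)
  rw [show (a : ℤ) * b - a - b - (g + i) = g + (-1 - i) by linarith] at h1
  have hb' : (b : ℚ) ≠ 0 := by positivity
  unfold stepq
  rw [h1]
  push_cast
  field_simp
  ring

/-- A function which is periodic modulo `b` and has the given steps. -/
def potq (b : ℕ) (u g i : ℤ) : ℚ := - ∑ j ∈ range (i % b).toNat, stepq b u g j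

theorem potq_per (b : ℕ) (u g i : ℤ) : potq b u g (i + b) = potq b u g i := by
  unfold potq
  rw [Int.add_emod_right]

theorem potq_step {a b : ℕ} {u v g : ℤ} (hb : 0 < b) (h : a * u + b * v = 1)
    (hg : 2 * g = a * b - a - b + 1) (i : ℤ) :
    potq b u g i - potq b u g (i + 1) = stepq b u g i := by
  have hb' : (0 : ℤ) < b := by exact_mod_cast hb
  have h1 := Int.emod_nonneg i hb'.ne'
  have h2 := Int.emod_lt_of_pos i hb'
  have h3 := Int.emod_add_mul_ediv i b
  obtain ⟨n, hn⟩ := Int.eq_ofNat_of_zero_le h1
  have hstep : stepq b u g i = stepq b u g n := by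
    rw [← h3, hn, stepq_per]
  rw [hstep]
  rcases lt_or_ge ((n : ℤ) + 1) b with h4 | h4
  · have h5 : (i + 1) % b = n + 1 := by
      refine emod_unique (by omega) h4 (i / b) ?_
      rw [← hn]
      linarith
    unfold potq
    rw [h5, hn, Int.toNat_natCast, show ((n : ℤ) + 1).toNat = n + 1 by omega, sum_range_succ]
    ring
  · have h5 : (i + 1) % b = 0 := by
      refine emod_unique (le_refl _) hb' (i / b + 1) ?_
      linarith
    have h6 := sum_reflect (c := b) (fun n => stepq_per b u g n 1 ▸ by rw [mul_one])
      (stepq_odd hb h hg) 0 b 1 (Nat.zero_le _) (by simp)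
    rw [← Finset.range_eq_Ico] at h6
    have h7 : b = n + 1 := by omega
    rw [h7, sum_range_succ, ← h7] at h6
    unfold potq
    rw [h5, hn, Int.toNat_natCast, Int.toNat_zero, sum_range_zero]
    linarith

/-- **The hypotheses of the theorem are satisfied by the torus knots.** -/
theorem torusV_splits {a b : ℕ} (ha : 2 ≤ a) (hb : 2 ≤ b) (hcop : a.Coprime b) :
    ∃ p q : ℤ → ℚ, (∀ i, p (i + a) = p i) ∧ (∀ i, q (i + b) = q i) ∧
      ∀ i : ℕ, i < a * b → p i + q i = ((2 * i - a * b) ^ 2 - a * b) / (4 * (a * b))
        - 2 * torusV a b (min i (a * b - i)) := by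
  obtain ⟨u, v, huv⟩ : ∃ u v : ℤ, (a : ℤ) * u + b * v = 1 := by
    have := Nat.isCoprime_iff_coprime.mpr hcop
    obtain ⟨u, v, huv⟩ := this
    exact ⟨u, v, by linarith⟩
  set g : ℕ := (a - 1) * (b - 1) / 2 with hgdef
  have hg : 2 * (g : ℤ) = a * b - a - b + 1 := two_genus ha hb hcop
  have hg' : 2 * (g : ℤ) = b * a - b - a + 1 := by linarith
  have huv' : (b : ℤ) * v + a * u = 1 := by linarith
  set E : ℕ → ℚ := fun i => ((2 * i - a * b) ^ 2 - a * b) / (4 * (a * b))
    - 2 * torusV a b (min i (a * b - i)) with hE
  set c : ℚ := E 0 - potq a v g 0 - potq b u g 0 with hc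
  refine ⟨fun i => potq a v g i + c, potq b u g, fun i => ?_, fun i => potq_per b u g i, ?_⟩
  · simp only [potq_per]
  -- the steps
  have hD : ∀ i : ℤ, potq a v g i + c + potq b u g i - (potq a v g (i + 1) + c
      + potq b u g (i + 1)) = stepq a v g i + stepq b u g i := by
    intro i
    rw [← potq_step (by omega) huv' hg' i, ← potq_step (by omega) huv hg i]
    ring
  have haq : (a : ℚ) ≠ 0 := by
    have : 0 < a := by omega
    positivity
  have hbq : (b : ℚ) ≠ 0 := by
    have : 0 < b := by omega
    positivity
  have hgq : (2 * g : ℚ) = a * b - a - b + 1 := by exact_mod_cast hg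
  have hlow : ∀ i : ℕ, 2 * (i + 1) ≤ a * b → stepq a v g i + stepq b u g i = E i - E (i + 1) := by
    intro i hi
    have h1 : stepq a v g i + stepq b u g i
        = (2 * (a * b) - a - b - 2 * (tt a b u v (g + i) : ℚ)) / (a * b) := by
      unfold stepq tt
      push_cast
      field_simp
      ring
    have hlt : (g : ℤ) + i < a * b := by
      have h3 : (2 : ℤ) * (i + 1) ≤ a * b := by exact_mod_cast hi
      have h4 : (0 : ℤ) < a := by omega
      have h5 : (0 : ℤ) < b := by omega
      linarith
    have h3 : (tt a b u v (g + i) : ℚ) = g + i + a * b * gap a b (g + i) := by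
      rcases tt_eq (by omega) (by omega) huv (n := g + i) (by positivity) hlt with
        ⟨h3, h4⟩ | ⟨h3, h4⟩
      · rw [h4]
        unfold gap
        rw [if_pos h3]
        push_cast
        ring
      · rw [h4]
        unfold gap
        rw [if_neg h3]
        push_cast
        ring
    have h4 := torusV_step ha hb hcop i hi
    rw [← hgdef] at h4
    have h5 : (torusV a b i : ℚ) - torusV a b (i + 1) = (gap a b (g + i) : ℚ) := by
      rw [← h4]
      push_cast
      ring
    rw [h1, h3, ← h5, hE]
    simp only
    rw [show min i (a * b - i) = i by omega, show min (i + 1) (a * b - (i + 1)) = i + 1 by omega]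
    push_cast
    field_simp
    linear_combination (-4 : ℚ) * hgq
  have hEs : ∀ i : ℕ, i ≤ a * b → E (a * b - i) = E i := by
    intro i hi
    rw [hE]
    simp only
    rw [show min (a * b - i) (a * b - (a * b - i)) = min i (a * b - i) by omega, Nat.cast_sub hi]
    push_cast
    ring
  have hper : ∀ i k : ℤ, stepq a v g (i + a * b * k) + stepq b u g (i + a * b * k)
      = stepq a v g i + stepq b u g i := by
    intro i k
    have h1 := stepq_per a v g i (b * k)
    have h2 := stepq_per b u g i (a * k)
    rw [show i + (a : ℤ) * (b * k) = i + a * b * k by ring] at h1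
    rw [show i + (b : ℤ) * (a * k) = i + a * b * k by ring] at h2
    rw [h1, h2]
  have hodd : ∀ i : ℤ, stepq a v g (-1 - i) + stepq b u g (-1 - i)
      = -(stepq a v g i + stepq b u g i) := by
    intro i
    rw [stepq_odd (by omega) huv' hg' i, stepq_odd (by omega) huv hg i]
    ring
  have hall : ∀ i : ℕ, i < a * b → stepq a v g i + stepq b u g i = E i - E (i + 1) := by
    intro i hi
    by_cases h1 : 2 * (i + 1) ≤ a * b
    · exact hlow i h1
    -- the reflection
    have h2 := hodd (((a * b - 1 - i : ℕ)) : ℤ)
    have h3 : (-1 : ℤ) - ((a * b - 1 - i : ℕ) : ℤ) = i + a * b * (-1) := by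
      rw [Nat.cast_sub (by omega), Nat.cast_sub (by omega)]
      push_cast
      ring
    rw [h3, hper] at h2
    rw [h2]
    have h4 := hEs (i + 1) (by omega)
    have h5 := hEs i (by omega)
    by_cases h6 : 2 * (a * b - 1 - i + 1) ≤ a * b
    · rw [hlow _ h6]
      rw [show a * b - 1 - i + 1 = a * b - i by omega, show a * b - 1 - i = a * b - (i + 1) by omega,
        h4, h5]
      ring
    · have h7 : a * b - 1 - i = i := by omega
      rw [h7] at h2 ⊢
      have h8 : a * b - (i + 1) = i := by omega
      rw [h8] at h4
      rw [← h4]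
      linarith
  have hfin : ∀ i : ℕ, i ≤ a * b → potq a v g i + c + potq b u g i = E i := by
    intro i
    induction i with
    | zero =>
      intro _
      rw [hc]
      push_cast
      ring
    | succ i ih =>
      intro hi
      have h1 := ih (by omega)
      have h2 := hD i
      rw [hall i (by omega)] at h2
      push_cast at h2 ⊢
      linarith
  intro i hi
  exact hfin i hi.le

end Pool.Agent.Helper23.FT
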