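import Pool.Agent.Helper23.FT.Dominance

/-!
# The bounds for the genus and the slope

`FloerData` collects the numerical invariants of a knot which come from its knot Floer complex and
the published relations between them. `redRank` is the rank of the reduced Heegaard Floer homology of
an integral surgery, in a degree relative to the `d`-invariant.
-/

set_option autoImplicit false

namespace Pool.Agent.Helper23.FT

open Finset

/-- Numerical invariants of a knot `K` in the 3-sphere. -/
structure FloerData where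
  /-- the genus -/
  genus : ℕ
  /-- the (smooth) slice genus -/
  g4 : ℕ
  /-- the invariants `V_s`, `s ≥ 0`: the bottom of the tower in the homology of `A_s⁺` has
  the degree `- 2 V_s` -/
  V : ℕ → ℕ
  /-- `W s δ` is the rank of `H_red(A_s⁺)` in the degree `s + δ` -/
  W : ℤ → ℤ → ℕ
  /-- the least value of `δ = (Maslov grading) - (Alexander grading)` on the knot Floer homology -/
  dmin : ℤ
  /-- the largest value of `δ` -/
  dmax : ℤ
  /-- the invariant `τ` -/
  tau : ℤ
  V_succ_le : ∀ s, V (s + 1) ≤ V s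
  V_le_succ : ∀ s, V s ≤ V (s + 1) + 1
  g4_le : g4 ≤ genus
  /-- Rasmussen 2004 -/
  V_eq_zero : ∀ s, g4 ≤ s → V s = 0
  /-- Rasmussen 2004: `V_s ≤ ⌈(g4 - s) / 2⌉` for `s ≤ g4` -/
  two_V_le : ∀ s, s ≤ g4 → 2 * V s + s ≤ g4 + 1
  /-- the genus bound for `A_s⁺` -/
  W_eq_zero : ∀ s δ : ℤ, (genus : ℤ) ≤ |s| → W s δ = 0
  /-- the symmetry of the knot Floer complex -/
  W_neg : ∀ s δ : ℤ, W (-s) δ = W s δ
  /-- `H_red(A_s⁺)` is the kernel of `H(C{i < 0, j < s}) → H(C)` with a shift of the degree by one,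
  so `δ ≤ dmax - 1`; up to the tower a class of degree less than `2 s` comes
  from `H(C{i ≥ 0, j ≥ s})`, so `δ ≥ min (dmin - 1, 0)` -/
  W_window : ∀ s δ : ℤ, W s δ ≠ 0 → min (dmin - 1) 0 ≤ δ ∧ δ ≤ dmax - 1
  /-- knot Floer homology detects the genus (Ozsváth and Szabó 2004): if `V_{g - 1} = 0` then
  `H_red(A_{g - 1}⁺) ≠ 0` -/
  W_top : 0 < genus → V (genus - 1) = 0 → ∃ δ, W (genus - 1 : ℕ) δ ≠ 0
  /-- `τ` is the Alexander grading of a generator with Maslov grading `0` -/
  tau_window : dmin ≤ -tau ∧ -tau ≤ dmax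
  /-- Ozsváth and Szabó 2003: `|τ| ≤ g4` -/
  tau_le : |tau| ≤ g4

namespace FloerData

variable (D : FloerData)

/-- The Floer thickness: the number of the diagonals which carry knot Floer homology, minus one. -/
def th : ℤ := D.dmax - D.dmin

/-- The degrees `- |s| - 2 j` for `1 ≤ j ≤ V_|s|`: a tower of the height `V_|s|`. -/
noncomputable def tail (s δ : ℤ) : ℕ :=
  open scoped Classical in
  if ∃ j : ℕ, 1 ≤ j ∧ j ≤ D.V s.natAbs ∧ δ = -|s| - 2 * j then 1 else 0

/-- The rank of the reduced Heegaard Floer homology of `K(r)`, `r > 0`, for the spin^c structures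
`± i`, `0 ≤ i ≤ r / 2`, in the degree `d(K(r), i) + q`. The sum is over the integers `s = i + l r`;
both terms are zero if `|l|` exceeds the genus. -/
noncomputable def redRank (r i : ℕ) (q : ℤ) : ℕ :=
  ∑ l ∈ Icc (-(D.genus : ℤ)) D.genus,
    (D.W (i + l * r) (q - 2 * D.V i - (l ^ 2 * r + (2 * l + 1) * i)) +
      if l = 0 then 0 else D.tail (i + l * r) (q - 2 * D.V i - (l ^ 2 * r + (2 * l + 1) * i)))

/-- The numerical form of a decomposition `K(r) = L # Y` where `L` is a lens space and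
the first homology groups have the orders `a` and `b`: `r = a b` is positive, the `d`-invariants of
`K(r)`, given by the formula of Ni and Wu, are sums of a function of `i` modulo `a` (from `L`) and a
function of `i` modulo `b` (from `Y`), and the reduced Floer homology, relative to the
`d`-invariant, depends only on `i` modulo `b` since that of `L` is zero. -/
structure Splits (a b : ℕ) : Prop where
  two_le : 2 ≤ a
  pos : 0 < b
  coprime : a.Coprime b
  exists_d : ∃ p q : ℤ → ℚ, (∀ i, p (i + a) = p i) ∧ (∀ i, q (i + b) = q i) ∧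
    ∀ i : ℕ, i < a * b → p i + q i = ((2 * i - a * b) ^ 2 - a * b) / (4 * (a * b))
      - 2 * D.V (min i (a * b - i))
  exists_red : ∃ N : ℤ → ℤ → ℕ, (∀ i q, N (i + b) q = N i q) ∧
    ∀ (i : ℕ) (q : ℤ), 2 * i ≤ a * b → N i q = D.redRank (a * b) i q ∧
      N (-i) q = D.redRank (a * b) i q

variable {D}

/-- The possible values of `δ`. -/
def Ok (D : FloerData) (δ : ℤ) : Prop :=
  (min (D.dmin - 1) 0 ≤ δ ∧ δ ≤ D.dmax - 1) ∨ (0 < D.g4 ∧ -(D.g4 : ℤ) - 1 ≤ δ ∧ δ ≤ -2)

theorem th_nonneg : 0 ≤ D.th := by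
  have := D.tau_window
  unfold th
  omega

/-- The difference of two possible degrees, together with the shift of the degree of a class. -/
theorem Ok.le {δ δ' : ℤ} (i : ℕ) (h : D.Ok δ) (h' : min (D.dmin - 1) 0 ≤ δ') :
    δ + 2 * D.V i ≤ δ' + D.th + 2 * D.g4 := by
  have h1 := D.tau_window
  have h2 := abs_le.mp D.tau_le
  have h3 : D.V i ≤ D.V 0 := antitone_nat_of_succ_le D.V_succ_le (Nat.zero_le i)
  have h4 := D.two_V_le 0 (Nat.zero_le _)
  have h5 : D.g4 = 0 → D.V 0 = 0 := fun h => D.V_eq_zero 0 (by omega)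
  unfold th
  rcases h with h | h <;> rcases Nat.eq_zero_or_pos D.g4 with h6 | h6
  · have := h5 h6
    omega
  · omega
  · omega
  · omega

theorem exists_of_redRank {r i : ℕ} {q : ℤ} (h : D.redRank r i q ≠ 0) :
    ∃ l : ℤ, |(i : ℤ) + l * r| < D.genus ∧
      D.Ok (q - 2 * D.V i - (l ^ 2 * r + (2 * l + 1) * i)) := by
  obtain ⟨l, -, hl⟩ := Finset.exists_ne_zero_of_sum_ne_zero h
  refine ⟨l, ?_⟩
  by_cases hW : D.W (i + l * r) (q - 2 * D.V i - (l ^ 2 * r + (2 * l + 1) * i)) = 0
  · rw [hW, zero_add] at hl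
    split_ifs at hl with h1
    · exact absurd rfl hl
    unfold tail at hl
    split_ifs at hl with h2
    · obtain ⟨j, hj1, hj2, hj3⟩ := h2
      have h3 : (i + l * r : ℤ).natAbs < D.g4 := by
        by_contra hcon
        have := D.V_eq_zero _ (not_lt.mp hcon)
        omega
      have h4 := D.two_V_le _ h3.le
      have h5 := D.g4_le
      have h6 : ((i + l * r : ℤ).natAbs : ℤ) = |(i : ℤ) + l * r| := Int.natCast_natAbs _
      refine ⟨by omega, Or.inr ⟨by omega, ?_, ?_⟩⟩ <;> rw [hj3] <;> omega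
    · exact absurd rfl hl
  · refine ⟨?_, Or.inl (D.W_window _ _ hW)⟩
    by_contra hcon
    exact hW (D.W_eq_zero _ _ (not_lt.mp hcon))

theorem redRank_ne_zero {r i : ℕ} (hr : 0 < r) (hi : 2 * i ≤ r) {l δ : ℤ}
    (h : D.W (i + l * r) δ ≠ 0) :
    D.redRank r i (2 * D.V i + (l ^ 2 * r + (2 * l + 1) * i) + δ) ≠ 0 := by
  have hlt : |(i : ℤ) + l * r| < D.genus := by
    by_contra hcon
    exact h (D.W_eq_zero _ _ (not_lt.mp hcon))
  have hr' : (1 : ℤ) ≤ r := by exact_mod_cast hr
  have hi' : 2 * (i : ℤ) ≤ r := by exact_mod_cast hi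
  have hl : l ∈ Icc (-(D.genus : ℤ)) D.genus := by
    rw [abs_lt] at hlt
    rw [mem_Icc]
    constructor
    · by_contra hcon
      have h1 : l + 1 ≤ -(D.genus : ℤ) := by omega
      nlinarith
    · by_contra hcon
      nlinarith
  intro hcon
  unfold redRank at hcon
  rw [Finset.sum_eq_zero_iff] at hcon
  have h1 := hcon l hl
  rw [Nat.add_eq_zero_iff] at h1
  apply h
  rw [← h1.1]
  congr 1
  ring

/-- The comparison of two classes. -/
theorem compare (hg : D.g4 < D.genus) {r i j : ℕ} (hr : 0 < r) (hi : 2 * i ≤ r) (l : ℤ)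
    (hl : |(i : ℤ) + l * r| = D.genus - 1) (h : ∀ q, D.redRank r j q = D.redRank r i q) :
    ∃ k : ℤ, |(j : ℤ) + k * r| ≤ D.genus - 1 ∧
      l ^ 2 * r + (2 * l + 1) * i ≤ k ^ 2 * r + (2 * k + 1) * j + (D.th + 2 * D.g4) := by
  obtain ⟨δ, hδ⟩ := D.W_top (by omega) (D.V_eq_zero _ (by omega))
  have h1 : D.W (i + l * r) δ ≠ 0 := by
    rw [Nat.cast_sub (by omega)] at hδ
    push_cast at hδ
    rw [← hl] at hδ
    rcases abs_choice ((i : ℤ) + l * r) with h2 | h2
    · rwa [h2] at hδ
    · rw [h2, D.W_neg] at hδ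
      exact hδ
  have h2 := redRank_ne_zero hr hi h1
  rw [← h] at h2
  obtain ⟨k, hk1, hk2⟩ := exists_of_redRank h2
  refine ⟨k, by omega, ?_⟩
  have h3 := hk2.le j (D.W_window _ _ h1).1
  have h5 : (0 : ℤ) ≤ 2 * D.V i := by positivity
  linarith

/-- Every integer is `± i` modulo `r`, where `0 ≤ 2 i ≤ r`. -/
theorem exists_class {r : ℕ} (hr : 0 < r) (n : ℤ) :
    ∃ (i : ℕ) (k : ℤ), 2 * i ≤ r ∧ (n = i + k * r ∨ n = -i + k * r) := by
  have h0 : (0 : ℤ) < r := by exact_mod_cast hr
  have h1 := Int.emod_nonneg n h0.ne'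
  have h2 := Int.emod_lt_of_pos n h0
  have h3 := Int.emod_add_mul_ediv n r
  have h5 : (r : ℤ) * (n / r) = n / r * r := mul_comm _ _
  rcases le_or_gt (2 * (n % r)) r with h4 | h4
  · refine ⟨(n % r).toNat, n / r, by omega, Or.inl ?_⟩
    rw [Int.toNat_of_nonneg h1]
    linarith
  · refine ⟨(r - n % r).toNat, n / r + 1, by omega, Or.inr ?_⟩
    rw [Int.toNat_of_nonneg (by omega)]
    linarith

/-- The exponent in terms of the absolute value. -/
theorem exists_segment {r i : ℕ} (hi : 2 * i ≤ r) (l : ℤ) :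
    ∃ k t : ℤ, 0 ≤ k ∧ 0 ≤ t ∧ t ≤ r ∧ |(i : ℤ) + l * r| = k * r + t ∧
      l ^ 2 * r + (2 * l + 1) * i = k ^ 2 * r + (2 * k + 1) * t := by
  rcases le_or_gt 0 l with h | h
  · refine ⟨l, i, h, by positivity, by omega, ?_, rfl⟩
    rw [abs_of_nonneg (by positivity)]
    ring
  · refine ⟨-l - 1, r - i, by omega, by omega, by omega, ?_, by ring⟩
    rw [abs_of_nonpos]
    · ring
    · have : (l + 1) * (r : ℤ) ≤ 0 := mul_nonpos_of_nonpos_of_nonneg (by omega) (by positivity)
      nlinarith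

/-- The arithmetic if `b ≥ 2`. -/
theorem arith_two {r i j : ℕ} (hi : 2 * i ≤ r) (hj : 2 * j ≤ r) {l k s Ω : ℤ}
    (hl : |(i : ℤ) + l * r| = s) (hk : |(j : ℤ) + k * r| ≤ s - 1)
    (h : l ^ 2 * r + (2 * l + 1) * i ≤ k ^ 2 * r + (2 * k + 1) * j + Ω) :
    2 * s ≤ (Ω + 1) * r := by
  obtain ⟨k1, t1, hk1, ht1, ht1', h1, h1'⟩ := exists_segment hi l
  obtain ⟨k2, t2, hk2, ht2, ht2', h2, h2'⟩ := exists_segment hj k
  rw [h1'] at h
  rw [h2'] at h
  rw [hl] at h1
  rw [h2] at hk
  have hr0 : (0 : ℤ) ≤ r := by positivity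
  -- the segment which contains `s - 1` and `s`
  obtain ⟨n, t, hn, ht, ht', hs, he⟩ : ∃ n t : ℤ, 0 ≤ n ∧ 1 ≤ t ∧ t ≤ r ∧ s = n * r + t ∧
      k1 ^ 2 * r + (2 * k1 + 1) * t1 = n ^ 2 * r + (2 * n + 1) * t := by
    rcases ht1.lt_or_eq with h3 | h3
    · exact ⟨k1, t1, hk1, h3, ht1', h1, rfl⟩
    · have h4 : 1 ≤ s := by
        have : 0 ≤ k2 * r := by positivity
        linarith
      have h5 : 1 ≤ k1 := by
        by_contra hcon
        have : k1 = 0 := by omega
        rw [this, ← h3] at h1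
        omega
      have h6 : 1 ≤ (r : ℤ) := by
        by_contra hcon
        have : (r : ℤ) = 0 := by omega
        rw [this, ← h3] at h1
        omega
      exact ⟨k1 - 1, r, by omega, h6, le_refl _, by rw [h1, ← h3]; ring, by rw [← h3]; ring⟩
  rw [he] at h
  have hkn : k2 ≤ n := by
    by_contra hcon
    have : (n + 1) * r ≤ k2 * r := mul_le_mul_of_nonneg_right (by omega) hr0
    linarith
  have hmain : 2 * n + 1 ≤ Ω := by
    rcases hkn.lt_or_eq with h3 | h3
    · have h4 : (k2 + 1) ^ 2 * r ≤ n ^ 2 * r := by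
        apply mul_le_mul_of_nonneg_right _ hr0
        exact pow_le_pow_left₀ (by omega) (by omega) 2
      have h5 : (2 * k2 + 1) * t2 ≤ (2 * k2 + 1) * r :=
        mul_le_mul_of_nonneg_left ht2' (by omega)
      have h6 : (2 * n + 1) * 1 ≤ (2 * n + 1) * t := mul_le_mul_of_nonneg_left ht (by omega)
      linarith
    · subst h3
      have h4 : t2 + 1 ≤ t := by linarith
      have h5 : (2 * k2 + 1) * (t2 + 1) ≤ (2 * k2 + 1) * t :=
        mul_le_mul_of_nonneg_left h4 (by omega)
      linarith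
  have h7 : (2 * n + 2) * r ≤ (Ω + 1) * r := mul_le_mul_of_nonneg_right (by omega) hr0
  linarith

/-- The arithmetic if `b = 1`. -/
theorem arith_one {r m i : ℕ} (hm : 1 ≤ m) (hr : r = 2 * m ∨ r = 2 * m + 1) (hi : i ≤ m)
    {l s Ω : ℤ} (hl : |(i : ℤ) + l * r| = s)
    (h0 : ∃ k : ℤ, |((0 : ℕ) : ℤ) + k * r| ≤ s ∧
      l ^ 2 * r + (2 * l + 1) * i ≤ k ^ 2 * r + (2 * k + 1) * ((0 : ℕ) : ℤ) + Ω)
    (h1 : ∃ k : ℤ, |(m : ℤ) + k * r| ≤ s ∧
      l ^ 2 * r + (2 * l + 1) * i ≤ k ^ 2 * r + (2 * k + 1) * m + Ω) :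
    m ≤ Ω ∧ s ≤ 2 * Ω + 1 := by
  have hr1 : (2 * m : ℤ) ≤ r := by omega
  have hr2 : (r : ℤ) ≤ 2 * m + 1 := by omega
  have hm' : (1 : ℤ) ≤ m := by exact_mod_cast hm
  have hi' : (i : ℤ) ≤ m := by exact_mod_cast hi
  have hi0 : (0 : ℤ) ≤ i := by positivity
  have hr0 : (0 : ℤ) < r := by linarith
  -- the case of a positive `l`
  have hA : ∀ l : ℤ, 0 ≤ l → s = i + l * r →
      (∃ k : ℤ, |((0 : ℕ) : ℤ) + k * r| ≤ s ∧
        l ^ 2 * r + (2 * l + 1) * i ≤ k ^ 2 * r + (2 * k + 1) * ((0 : ℕ) : ℤ) + Ω) →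
      (∃ k : ℤ, |(m : ℤ) + k * r| ≤ s ∧
        l ^ 2 * r + (2 * l + 1) * i ≤ k ^ 2 * r + (2 * k + 1) * m + Ω) →
      m ≤ Ω ∧ s ≤ 2 * Ω + 1 := by
    intro l hl0 hs h0 h1
    rcases hi'.lt_or_eq with h2 | h2
    · obtain ⟨k, hk, hk'⟩ := h1
      rw [abs_le] at hk
      have h3 : k < l := by
        by_contra hcon
        have : l * r ≤ k * r := mul_le_mul_of_nonneg_right (by omega) hr0.le
        linarith
      have h4 : -l ≤ k := by
        by_contra hcon
        have : k * r ≤ (-l - 1) * r := mul_le_mul_of_nonneg_right (by omega) hr0.le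
        linarith
      have h5 : 0 ≤ (l + k) * ((l - k) * r - 2 * m) := by
        apply mul_nonneg (by omega)
        have : 1 * (r : ℤ) ≤ (l - k) * r := mul_le_mul_of_nonneg_right (by omega) hr0.le
        linarith
      have h6 : (2 * l + 1) * i + (2 * l - 1) * m ≤ Ω := by nlinarith
      have h7 : 1 ≤ l := by omega
      have h8 : 0 ≤ (2 * l + 1) * (i : ℤ) := by positivity
      have h9 : (2 * l - 1) * (m : ℤ) ≤ Ω := by linarith
      have h10 : 0 ≤ (l - 1) * (2 * m - 1) := mul_nonneg (by omega) (by omega)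
      have h11 : l * (r : ℤ) ≤ l * (2 * m + 1) := mul_le_mul_of_nonneg_left hr2 hl0
      have h12 : 0 ≤ (l - 1) * (m : ℤ) := mul_nonneg (by omega) (by omega)
      have h13 : 0 ≤ (2 * l) * (i : ℤ) := by positivity
      constructor
      · nlinarith
      · nlinarith
    · obtain ⟨k, hk, hk'⟩ := h0
      rw [Nat.cast_zero, zero_add, abs_le] at hk
      rw [h2] at hs hk'
      have h3 : k < l + 1 := by
        by_contra hcon
        have : (l + 1) * r ≤ k * r := mul_le_mul_of_nonneg_right (by omega) hr0.le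
        linarith
      have h4 : -l - 1 < k := by
        by_contra hcon
        have : k * r ≤ (-l - 1) * r := mul_le_mul_of_nonneg_right (by omega) hr0.le
        linarith
      have h5 : k ^ 2 * r ≤ l ^ 2 * r := by
        apply mul_le_mul_of_nonneg_right _ hr0.le
        apply sq_le_sq'
        · omega
        · omega
      have h6 : (2 * l + 1) * (m : ℤ) ≤ Ω := by
        push_cast at hk'
        linarith
      have h11 : l * (r : ℤ) ≤ l * (2 * m + 1) := mul_le_mul_of_nonneg_left hr2 hl0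
      have h12 : 0 ≤ l * (m : ℤ) := mul_nonneg hl0 (by omega)
      have h13 : 0 ≤ l * ((m : ℤ) - 1) := mul_nonneg hl0 (by omega)
      constructor
      · linarith
      · nlinarith
  rcases le_or_gt 0 l with hl0 | hl0
  · rw [abs_of_nonneg (by positivity)] at hl
    exact hA l hl0 hl.symm h0 h1
  · have hneg : (i : ℤ) + l * r ≤ 0 := by
      have : l * r ≤ (-1) * r := mul_le_mul_of_nonneg_right (by omega) hr0.le
      linarith
    rw [abs_of_nonpos hneg] at hl
    rcases Nat.eq_zero_or_pos i with hi1 | hi1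
    · -- `i = 0`: use `- l`
      have hi2 : (i : ℤ) = 0 := by exact_mod_cast hi1
      refine hA (-l) (by omega) (by rw [← hl, hi2]; ring) ?_ ?_
      · obtain ⟨k, hk, hk'⟩ := h0
        refine ⟨k, hk, ?_⟩
        rw [hi2] at hk' ⊢
        push_cast at hk' ⊢
        linarith
      · obtain ⟨k, hk, hk'⟩ := h1
        refine ⟨k, hk, ?_⟩
        rw [hi2] at hk' ⊢
        linarith
    · obtain ⟨k, hk, hk'⟩ := h0
      rw [Nat.cast_zero, zero_add, abs_le] at hk
      have hi3 : (1 : ℤ) ≤ i := by exact_mod_cast hi1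
      set n : ℤ := -l with hn
      have hln : l = -n := by omega
      rw [hln] at hl hk'
      have h3 : k < n := by
        by_contra hcon
        have : n * r ≤ k * r := mul_le_mul_of_nonneg_right (by omega) hr0.le
        linarith
      have h4 : -n < k := by
        by_contra hcon
        have : k * r ≤ (-n) * r := mul_le_mul_of_nonneg_right (by omega) hr0.le
        linarith
      have h5 : k ^ 2 * r ≤ (n - 1) ^ 2 * r := by
        apply mul_le_mul_of_nonneg_right _ hr0.le
        apply sq_le_sq'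
        · omega
        · omega
      have h6 : (2 * n - 1) * (r - i) ≤ Ω := by
        push_cast at hk'
        linarith
      have h7 : 0 ≤ (n - 1) * ((r : ℤ) - 2 * i) := mul_nonneg (by omega) (by linarith)
      have h8 : 0 ≤ (n - 1) * ((r : ℤ) - i) := mul_nonneg (by omega) (by linarith)
      have h9 : s ≤ Ω := by nlinarith
      have h10 : (m : ℤ) ≤ Ω := by nlinarith
      exact ⟨h10, by linarith⟩

/-- The comparison with the torus knot. -/
theorem Splits.torusV_le {a b : ℕ} (h : D.Splits a b) (hb : 2 ≤ b) (i : ℕ) (hi : 2 * i ≤ a * b) :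
    torusV a b i ≤ D.V i := by
  obtain ⟨p, q, hp, hq, hv⟩ := h.exists_d
  exact FT.torusV_le h.two_le hb h.coprime D.V D.V_succ_le D.V_le_succ p q hp hq hv i hi

/-- The order of the homology is bounded if both summands have homology. -/
theorem Splits.le_of_two_le {a b : ℕ} (h : D.Splits a b) (hb : 2 ≤ b) :
    a * b ≤ 4 * D.g4 + 2 ∧ (a - 1) * (b - 1) / 2 ≤ D.g4 ∧ 0 < D.g4 := by
  have hg := two_genus h.two_le hb h.coprime
  set G := (a - 1) * (b - 1) / 2 with hG
  have ha' : (2 : ℤ) ≤ a := by exact_mod_cast h.two_le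
  have hb' : (2 : ℤ) ≤ b := by exact_mod_cast hb
  have hne : a ≠ b := by
    rintro rfl
    have := h.coprime
    rw [Nat.coprime_self] at this
    omega
  have hG1 : 1 ≤ G := by
    have h1 : 2 ≤ (a - 1) * (b - 1) := by
      rcases Nat.lt_or_ge a b with h2 | h2
      · have h3 : 1 * 2 ≤ (a - 1) * (b - 1) :=
          Nat.mul_le_mul (by have := h.two_le; omega) (by have := h.two_le; omega)
        omega
      · have h3 : 2 * 1 ≤ (a - 1) * (b - 1) := Nat.mul_le_mul (by omega) (by omega)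
        omega
    omega
  have h1 := torusV_pos h.two_le hb h.coprime (G - 1) (by omega)
  have h2 := h.torusV_le hb (G - 1) (by
    zify
    rw [Nat.cast_sub hG1]
    push_cast
    linarith)
  have h3 : G ≤ D.g4 := by
    by_contra hcon
    have := D.V_eq_zero (G - 1) (by omega)
    omega
  refine ⟨?_, h3, by omega⟩
  have h4 : (G : ℤ) ≤ D.g4 := by exact_mod_cast h3
  have h5 : (0 : ℤ) ≤ ((a : ℤ) - 2) * (b - 2) := mul_nonneg (by omega) (by omega)
  have h6 : ((a * b : ℕ) : ℤ) ≤ 4 * D.g4 + 2 := by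
    push_cast
    nlinarith
  exact_mod_cast h6

/-- The two bounds. -/
theorem Splits.bounds {a b : ℕ} (h : D.Splits a b) (hg : D.g4 < D.genus) :
    ((a * b : ℕ) : ℤ) ≤ 2 * D.th + 4 * D.g4 + 2 ∧
      (D.genus : ℤ) ≤ 2 * (D.g4 + 1) * (D.th + 2 * D.g4 + 1) := by
  obtain ⟨N, hN1, hN2⟩ := h.exists_red
  have ha := h.two_le
  have hb := h.pos
  have hr : 0 < a * b := Nat.mul_pos (by omega) hb
  have hth := th_nonneg (D := D)
  have hperb : ∀ i k q : ℤ, N (i + k * b) q = N i q := by
    intro i k q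
    have h1 : Function.Periodic (fun i => N i q) b := fun i => hN1 i q
    exact h1.int_mul k i
  have hper : ∀ i k q : ℤ, N (i + k * (a * b : ℕ)) q = N i q := by
    intro i k q
    have h1 := hperb i (k * a) q
    rw [← h1]
    congr 1
    push_cast
    ring
  -- the class of `g - 1`
  obtain ⟨i, k, hi, hik⟩ := exists_class hr (D.genus - 1)
  obtain ⟨l, hl⟩ : ∃ l : ℤ, |(i : ℤ) + l * (a * b : ℕ)| = D.genus - 1 := by
    rcases hik with h1 | h1
    · refine ⟨k, ?_⟩
      rw [← h1, abs_of_nonneg (by omega)]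
    · refine ⟨-k, ?_⟩
      rw [show (i : ℤ) + -k * (a * b : ℕ) = -((D.genus : ℤ) - 1) by rw [h1]; ring, abs_neg,
        abs_of_nonneg (by omega)]
  rcases Nat.lt_or_ge b 2 with hb1 | hb2
  · -- `b = 1`
    have hb1 : b = 1 := by omega
    subst hb1
    have hall : ∀ i j : ℤ, ∀ q, N i q = N j q := by
      intro i j q
      have h1 := hperb j (i - j) q
      rw [← h1]
      congr 1
      push_cast
      ring
    set m := a / 2 with hm
    have hm1 : a * 1 = 2 * m ∨ a * 1 = 2 * m + 1 := by omega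
    have key : ∀ j : ℕ, 2 * j ≤ a * 1 → ∀ q, D.redRank (a * 1) j q = D.redRank (a * 1) i q := by
      intro j hj q
      rw [← (hN2 j q hj).1, ← (hN2 i q hi).1]
      exact hall _ _ q
    have h0 := compare hg hr hi l hl (key 0 (by omega))
    have h1 := compare hg hr hi l hl (key m (by omega))
    obtain ⟨h2, h3⟩ := arith_one (by omega) hm1 (by omega) hl h0 h1
    refine ⟨by omega, ?_⟩
    have h4 : (D.genus : ℤ) ≤ 2 * (D.th + 2 * D.g4 + 1) := by linarith
    have h5 : (0 : ℤ) ≤ 2 * D.g4 * (D.th + 2 * D.g4 + 1) := by positivity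
    linarith
  · -- `b ≥ 2`
    obtain ⟨h1, h2, h3⟩ := h.le_of_two_le hb2
    -- another class
    obtain ⟨j, hj, hne, hNj⟩ : ∃ j : ℕ, 2 * j ≤ a * b ∧ j ≠ i ∧
        ∀ q, D.redRank (a * b) j q = D.redRank (a * b) i q := by
      have hclass : ∀ c : ℤ, ∃ (j : ℕ) (k : ℤ), 2 * j ≤ a * b ∧
          ((i : ℤ) + c * b = j + k * (a * b : ℕ) ∨ (i : ℤ) + c * b = -j + k * (a * b : ℕ)) ∧
          ∀ q, D.redRank (a * b) j q = D.redRank (a * b) i q := by
        intro c
        obtain ⟨j, k, hj, hjk⟩ := exists_class hr (i + c * b)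
        refine ⟨j, k, hj, hjk, fun q => ?_⟩
        have h5 := hperb i c q
        rw [← (hN2 i q hi).1, ← h5]
        rcases hjk with h4 | h4
        · rw [h4, hper, (hN2 j q hj).1]
        · rw [h4, hper, (hN2 j q hj).2]
      obtain ⟨j1, k1, hj1, hjk1, hq1⟩ := hclass 1
      by_cases hne1 : j1 = i
      · -- then `a b` divides `2 i + b`
        subst hne1
        have hab : ((a * b : ℕ) : ℤ) = a * b := by push_cast; ring
        have hbpos : (0 : ℤ) < b := by exact_mod_cast hb
        have ha' : (2 : ℤ) ≤ a := by exact_mod_cast ha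
        have h4 : (j1 : ℤ) + 1 * b = -j1 + k1 * (a * b : ℕ) := by
          rcases hjk1 with h4 | h4
          · exfalso
            rw [hab] at h4
            have h5 : (b : ℤ) * 1 = b * (k1 * a) := by linarith
            have h6 := mul_left_cancel₀ hbpos.ne' h5
            have h7 : (a : ℤ) ∣ 1 := ⟨k1, by linarith⟩
            have h8 := Int.le_of_dvd (by norm_num) h7
            omega
          · exact h4
        rcases Nat.lt_or_ge a 3 with ha3 | ha3
        · -- `a = 2`
          exfalso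
          have ha2 : a = 2 := by omega
          subst ha2
          push_cast at h4
          have h5 : (2 : ℤ) ∣ b := ⟨k1 * b - j1, by linarith⟩
          have h6 : 2 ∣ b := by exact_mod_cast h5
          have := Nat.dvd_gcd (dvd_refl 2) h6
          rw [h.coprime] at this
          omega
        · obtain ⟨j2, k2, hj2, hjk2, hq2⟩ := hclass 2
          refine ⟨j2, hj2, ?_, hq2⟩
          rintro rfl
          have ha3' : (3 : ℤ) ≤ a := by exact_mod_cast ha3
          rw [hab] at hjk2 h4
          rcases hjk2 with h5 | h5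
          · have h6 : (b : ℤ) * 2 = b * (k2 * a) := by linarith
            have h7 := mul_left_cancel₀ hbpos.ne' h6
            have h8 : (a : ℤ) ∣ 2 := ⟨k2, by linarith⟩
            have h9 := Int.le_of_dvd (by norm_num) h8
            omega
          · have h6 : (b : ℤ) * 1 = b * ((k2 - k1) * a) := by linarith
            have h7 := mul_left_cancel₀ hbpos.ne' h6
            have h8 : (a : ℤ) ∣ 1 := ⟨k2 - k1, by linarith⟩
            have h9 := Int.le_of_dvd (by norm_num) h8
            omega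
      · exact ⟨j1, hj1, hne1, hq1⟩
    obtain ⟨c, hc1, hc2⟩ := compare hg hr hi l hl hNj
    have hc3 : |(j : ℤ) + c * (a * b : ℕ)| ≤ D.genus - 1 - 1 := by
      rcases hc1.lt_or_eq with h4 | h4
      · omega
      · exfalso
        -- equal absolute values give equal classes
        apply hne
        have hr' : (0 : ℤ) < (a * b : ℕ) := by exact_mod_cast hr
        have hi' : 2 * (i : ℤ) ≤ (a * b : ℕ) := by exact_mod_cast hi
        have hj' : 2 * (j : ℤ) ≤ (a * b : ℕ) := by exact_mod_cast hj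
        have hzero : ∀ x z : ℤ, x = z * ((a * b : ℕ) : ℤ) → x < (a * b : ℕ) →
            -((a * b : ℕ) : ℤ) < x → x = 0 := by
          intro x z hx hx1 hx2
          have hz : z = 0 := by
            by_contra hcon
            rcases lt_or_gt_of_ne hcon with hz | hz
            · have : z * ((a * b : ℕ) : ℤ) ≤ (-1) * (a * b : ℕ) :=
                mul_le_mul_of_nonneg_right (by omega) hr'.le
              linarith
            · have : 1 * ((a * b : ℕ) : ℤ) ≤ z * (a * b : ℕ) :=
                mul_le_mul_of_nonneg_right (by omega) hr'.le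
              linarith
          rw [hx, hz, zero_mul]
        rw [← hl] at h4
        rcases abs_eq_abs.mp h4 with h5 | h5
        · have := hzero ((j : ℤ) - i) (l - c) (by linarith) (by omega) (by omega)
          omega
        · by_cases h6 : (j : ℤ) + i < (a * b : ℕ)
          · have := hzero ((j : ℤ) + i) (-l - c) (by linarith) h6 (by omega)
            omega
          · omega
    have h5 := arith_two hi hj hl hc3 hc2
    have h6 : ((a * b : ℕ) : ℤ) ≤ 4 * D.g4 + 2 := by exact_mod_cast h1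
    refine ⟨by omega, ?_⟩
    have h7 : (D.th + 2 * D.g4 + 1) * ((a * b : ℕ) : ℤ)
        ≤ (D.th + 2 * D.g4 + 1) * (4 * D.g4 + 2) :=
      mul_le_mul_of_nonneg_left h6 (by positivity)
    have h8 : (1 : ℤ) ≤ D.th + 2 * D.g4 + 1 := by omega
    nlinarith

/-- **The genus bound.** -/
theorem Splits.genus_le {a b : ℕ} (h : D.Splits a b) :
    (D.genus : ℤ) ≤ 2 * (D.g4 + 1) * (D.th + 2 * D.g4 + 1) := by
  rcases D.g4_le.lt_or_eq with hg | hg
  · exact (h.bounds hg).2
  · have hth := th_nonneg (D := D)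
    rw [← hg]
    have h1 : (0 : ℤ) ≤ D.g4 := by positivity
    nlinarith [mul_nonneg h1 hth, mul_nonneg h1 h1]

end FloerData

end Pool.Agent.Helper23.FT
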